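import Pool.Agent.Helper66.SUBK.LAUBM

/-! Project SUBK, row COREK: the heart of the application to `y ^ 2 - x ^ 3`, over a Galois
extension of `ℚ`. -/

set_option autoImplicit false

namespace Pool.Agent.Helper66.SUBK

open Finset Pool.Agent.Helper70.SUB Pool.Agent.Helper77.SUBK

/-- all but finitely many elements of `T` -/
def Evt (T : Set ℕ) (P : ℕ → Prop) : Prop := {j | j ∈ T ∧ ¬ P j}.Finite

theorem Evt.mono {T : Set ℕ} {P Q : ℕ → Prop} (h : Evt T P) (hPQ : ∀ j ∈ T, P j → Q j) :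
    Evt T Q :=
  Set.Finite.subset h fun j hj => ⟨hj.1, fun hP => hj.2 (hPQ j hj.1 hP)⟩

theorem Evt.and {T : Set ℕ} {P Q : ℕ → Prop} (h : Evt T P) (h' : Evt T Q) :
    Evt T (fun j => P j ∧ Q j) :=
  Set.Finite.subset (Set.Finite.union h h') fun j hj => by
    by_cases hP : P j
    · exact Or.inr ⟨hj.1, fun hQ => hj.2 ⟨hP, hQ⟩⟩
    · exact Or.inl ⟨hj.1, hP⟩

theorem Evt.all {T : Set ℕ} {α : Type} (s : Finset α) {P : α → ℕ → Prop}
    (h : ∀ a ∈ s, Evt T (P a)) : Evt T (fun j => ∀ a ∈ s, P a j) := by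
  classical
  refine Set.Finite.subset (Set.Finite.biUnion s.finite_toSet
    (t := fun a => {j | j ∈ T ∧ ¬ P a j}) (fun a ha => h a (by exact_mod_cast ha))) ?_
  intro j hj
  obtain ⟨hjT, hn⟩ := hj
  push Not at hn
  obtain ⟨a, ha, hPa⟩ := hn
  exact Set.mem_biUnion (by exact_mod_cast ha) ⟨hjT, hPa⟩

theorem Evt.ex {T : Set ℕ} {P : ℕ → Prop} (hT : T.Infinite) (h : Evt T P) : ∃ j ∈ T, P j := by
  by_contra hne
  push Not at hne
  exact hT (Set.Finite.subset h fun j hj => ⟨hj, hne j hj⟩)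

section field

variable {M : Type} [Field M] {r : ℕ}

theorem monM_ne (w : Fin r → M) (hw : ∀ k, w k ≠ 0) (m : Fin r → ℤ) : monM w m ≠ 0 :=
  Finset.prod_ne_zero_iff.mpr fun k _ => zpow_ne_zero _ (hw k)

theorem evM_sum {α : Type} (w : Fin r → M) (s : Finset α) (f : α → LauM M r) :
    evM w (∑ i ∈ s, f i) = ∑ i ∈ s, evM w (f i) := by
  classical
  induction s using Finset.induction_on with
  | empty => simp [evM_zero]
  | insert a s ha ih => rw [Finset.sum_insert ha, Finset.sum_insert ha, evM_add, ih]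

theorem evM_drM (w : Fin r → M) (δ : Fin r → ℤ) (F : LauM M r) :
    evM w (drM δ F) = ∑ m ∈ Finsupp.support F.coeff,
      (((∑ k, δ k * m k : ℤ) : M) * F.coeff m) * monM w m := by
  unfold drM
  rw [evM_sum]
  exact Finset.sum_congr rfl fun m _ => evM_single w m _

theorem evM_one (w : Fin r → M) : evM w (1 : LauM M r) = 1 := by
  rw [AddMonoidAlgebra.one_def, evM_single]; simp [monM]

/-- evaluation as a ring homomorphism -/
noncomputable def evR (w : Fin r → M) (hw : ∀ k, w k ≠ 0) : LauM M r →+* M where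
  toFun := evM w
  map_one' := evM_one w
  map_mul' := evM_mul w hw
  map_zero' := evM_zero w
  map_add' := evM_add w

theorem evR_apply (w : Fin r → M) (hw : ∀ k, w k ≠ 0) (F : LauM M r) : evR w hw F = evM w F := rfl

theorem drM_sub (δ : Fin r → ℤ) (F G : LauM M r) : drM δ (F - G) = drM δ F - drM δ G := by
  have h : drM δ (F - G + G) = drM δ (F - G) + drM δ G := drM_add δ _ _
  rw [sub_add_cancel] at h
  rw [h, add_sub_cancel_right]

end field

variable {M : Type} [Field M] [NumberField M] [IsGalois ℚ M] {S : Finset ℕ} {r : ℕ}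

/-- size of the derivative of a Laurent polynomial -/
theorem drM_bound (hLAU2 : ST_LAU2K) (P : PF S M) (T : Set ℕ)
    (w : ℕ → Fin r → M) (F : LauM M r) (ε : ℝ) (H : ℕ → ℝ) (v : Option ℕ) (σ : M ≃ₐ[ℚ] M)
    (hS : ∀ p ∈ S, p.Prime) (hT : T.Infinite) (hε : 0 < ε) (hF : F ≠ 0) (hI : IndepM T w)
    (hw : ∀ j ∈ T, ∀ k, SV S (w j k) ∧ HB P (H j) (w j k)) (hH1 : ∀ j ∈ T, 1 ≤ H j)
    (hv : v ∈ plc S) (δ : Fin r → ℤ) :
    ∃ K : ℝ, 0 ≤ K ∧ Evt T (fun j => P.nv v (σ (evM (w j) (drM δ F)))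
      ≤ K * H j ^ ε * P.nv v (σ (evM (w j) F))) := by
  obtain ⟨C, hC, hfin⟩ := hLAU2 M S P r T w F ε H v σ hS hT hε hF hI hw hH1 hv
  have hH : ∀ j ∈ T, 0 < H j := fun j hj => one_pos.trans_le (hH1 j hj)
  set B0 : ℝ := ∑ m ∈ Finsupp.support F.coeff,
    P.nv v (σ (((∑ k, δ k * m k : ℤ) : M) * F.coeff m)) with hB0
  have hB0n : 0 ≤ B0 := Finset.sum_nonneg fun m _ => P.nn _ _
  refine ⟨((Finsupp.support F.coeff).card + 1) * (B0 / C), by positivity, ?_⟩
  refine Evt.mono (P := fun j => ∀ m ∈ Finsupp.support F.coeff,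
    C * P.nv v (σ (monM (w j) m)) * H j ^ (-ε) ≤ P.nv v (σ (evM (w j) F))) hfin ?_
  intro j hj h
  rw [evM_drM, map_sum]
  have hHj := hH j hj
  have hE : 0 < H j ^ ε := Real.rpow_pos_of_pos hHj _
  have hb : ∀ m ∈ Finsupp.support F.coeff,
      P.nv v (σ ((((∑ k, δ k * m k : ℤ) : M) * F.coeff m) * monM (w j) m))
        ≤ B0 * (H j ^ ε * P.nv v (σ (evM (w j) F)) / C) := by
    intro m hm
    rw [map_mul, P.mul v hv]
    have h1 := h m hm
    have h2 : P.nv v (σ (monM (w j) m)) ≤ H j ^ ε * P.nv v (σ (evM (w j) F)) / C := by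
      rw [le_div_iff₀ hC]
      have h3 : H j ^ (-ε) * H j ^ ε = 1 := by
        rw [← Real.rpow_add hHj]; simp
      calc P.nv v (σ (monM (w j) m)) * C
          = (C * P.nv v (σ (monM (w j) m)) * H j ^ (-ε)) * H j ^ ε := by
            rw [mul_assoc _ (H j ^ (-ε)), h3]; ring
        _ ≤ P.nv v (σ (evM (w j) F)) * H j ^ ε := mul_le_mul_of_nonneg_right h1 hE.le
        _ = H j ^ ε * P.nv v (σ (evM (w j) F)) := mul_comm _ _
    refine mul_le_mul ?_ h2 (P.nn _ _) hB0n
    exact Finset.single_le_sum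
      (f := fun m => P.nv v (σ (((∑ k, δ k * m k : ℤ) : M) * F.coeff m)))
      (fun m _ => P.nn _ _) hm
  have hb0 : 0 ≤ B0 * (H j ^ ε * P.nv v (σ (evM (w j) F)) / C) :=
    mul_nonneg hB0n (div_nonneg (mul_nonneg hE.le (P.nn _ _)) hC.le)
  refine (P.sum_bd hv _ _ _ hb0 hb).trans ?_
  have hcard : (if v = none then ((Finsupp.support F.coeff).card : ℝ) else 1)
      ≤ (Finsupp.support F.coeff).card + 1 := by
    split_ifs
    · linarith
    · have : (0 : ℝ) ≤ (Finsupp.support F.coeff).card := Nat.cast_nonneg _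
      linarith
  refine (mul_le_mul_of_nonneg_right hcard hb0).trans (le_of_eq ?_)
  ring

/-- a Laurent polynomial which vanishes at infinitely many points of an independent sequence -/
theorem eq_zero_of_evt (hLAU2 : ST_LAU2K) (P : PF S M) (T : Set ℕ)
    (w : ℕ → Fin r → M) (F : LauM M r) (H : ℕ → ℝ)
    (hS : ∀ p ∈ S, p.Prime) (hT : T.Infinite) (hI : IndepM T w)
    (hw : ∀ j ∈ T, ∀ k, SV S (w j k) ∧ HB P (H j) (w j k)) (hH1 : ∀ j ∈ T, 1 ≤ H j)
    (h0 : Evt T (fun j => evM (w j) F = 0)) : F = 0 := by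
  have hH : ∀ j ∈ T, 0 < H j := fun j hj => one_pos.trans_le (hH1 j hj)
  by_contra hF
  have hv : (none : Option ℕ) ∈ plc S := mem_none
  obtain ⟨C, hC, hfin⟩ := hLAU2 M S P r T w F 1 H none AlgEquiv.refl hS hT one_pos hF hI hw hH1 hv
  have h1 : Evt T (fun j => ∀ m ∈ Finsupp.support F.coeff,
    C * P.nv none (monM (w j) m) * H j ^ (-(1 : ℝ)) ≤ P.nv none (evM (w j) F)) := hfin
  obtain ⟨j, hj, hz, hb⟩ := (h0.and h1).ex hT
  have hne : F.coeff ≠ 0 := fun h => hF (AddMonoidAlgebra.coeff_eq_zero.mp h)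
  obtain ⟨m, hm⟩ := Finsupp.support_nonempty_iff.mpr hne
  have h2 := hb m hm
  rw [hz, P.nz] at h2
  have h4 : 0 < P.nv none (monM (w j) m) := P.pos none hv _ (monM_ne (w j) (hI.1 j hj) m)
  have h5 : 0 < H j ^ (-(1 : ℝ)) := Real.rpow_pos_of_pos (hH j hj) _
  have : 0 < C * P.nv none (monM (w j) m) * H j ^ (-(1 : ℝ)) := by positivity
  linarith

theorem COREK (hAV : ST_AV) (hLAU1 : ST_LAU1M) (hLAU2 : ST_LAU2K) (hNUM : ST_NUMK) :
    ST_COREK := by
  intro M _ _ _ S P r M0 w X Y a ε x y hS hM hε ha hI hx hj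
  have hvn : (none : Option ℕ) ∈ plc S := mem_none
  -- large |x|
  have hlarge : ∀ B : ℝ, Evt M0 (fun j => B < |(x j : ℝ)|) := by
    intro B
    refine Set.Finite.subset (hx B) fun j hj => ⟨hj.1, not_lt.mp hj.2⟩
  set M1 : Set ℕ := {j | j ∈ M0 ∧ 2 < |(x j : ℝ)|} with hM1
  have hM1sub : M1 ⊆ M0 := fun j hj => hj.1
  have hM1inf : M1.Infinite := by
    intro hfin
    apply hM
    refine Set.Finite.subset (Set.Finite.union hfin (hlarge 2)) ?_
    intro j hjM
    by_cases h : 2 < |(x j : ℝ)|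
    · exact Or.inl ⟨hjM, h⟩
    · exact Or.inr ⟨hjM, h⟩
  have hI1 : IndepM M1 w := by
    refine ⟨fun j hj => hI.1 j (hM1sub hj), fun l ρ hl => ?_⟩
    exact Set.Finite.subset (hI.2 l ρ hl) fun j hj => ⟨hM1sub hj.1, hj.2⟩
  have hlarge1 : ∀ B : ℝ, Evt M1 (fun j => B < |(x j : ℝ)|) := by
    intro B
    refine Set.Finite.subset (hlarge B) fun j hj => ⟨hM1sub hj.1, hj.2⟩
  set H : ℕ → ℝ := fun j => |(x j : ℝ)| ^ a with hH
  have hHpos : ∀ j ∈ M1, 0 < H j := fun j hj =>
    Real.rpow_pos_of_pos (by linarith [hj.2]) _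
  have hw1 : ∀ j ∈ M1, ∀ k, SV S (w j k) ∧ HB P (H j) (w j k) :=
    fun j hj' => (hj j (hM1sub hj')).1
  have hH1 : ∀ j ∈ M1, 1 ≤ H j := fun j hj' =>
    Real.one_le_rpow (by linarith [hj'.2]) ha.le
  set Z : LauM M r := Y * Y - X * X * X with hZ
  have hwp : ∀ j ∈ M1, ∀ k, w j k ≠ 0 := fun j hj' => hI1.1 j hj'
  -- values
  have hevX : ∀ j ∈ M1, evM (w j) X = (x j : M) := fun j hj' => (hj j (hM1sub hj')).2.1.symm
  have hevY : ∀ j ∈ M1, evM (w j) Y = (y j : M) := fun j hj' => (hj j (hM1sub hj')).2.2.1.symm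
  have hevZ : ∀ j ∈ M1, evM (w j) Z = ((y j ^ 2 - x j ^ 3 : ℤ) : M) := by
    intro j hj'
    have := map_sub (evR (w j) (hwp j hj')) (Y * Y) (X * X * X)
    rw [map_mul, map_mul, map_mul] at this
    simp only [evR_apply, hevX j hj', hevY j hj'] at this
    rw [hZ, this]; push_cast; ring
  have hd0 : ∀ j ∈ M1, ((y j ^ 2 - x j ^ 3 : ℤ) : ℝ) ≠ 0 := by
    intro j hj'
    have := (hj j (hM1sub hj')).2.2.2.1
    exact_mod_cast sub_ne_zero.mpr this
  -- absolute values of integers
  have hnvn : ∀ z : ℤ, P.nv none (z : M) = |(z : ℝ)| := by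
    intro z
    rw [P.intCast hvn]; simp [av]
  -- size of y
  have hdx : ∀ j ∈ M1, |((y j ^ 2 - x j ^ 3 : ℤ) : ℝ)| ≤ |(x j : ℝ)| ^ (1 / (2 + ε)) :=
    fun j hj' => (hj j (hM1sub hj')).2.2.2.2
  have hsq : ∀ j ∈ M1, |(x j : ℝ)| ^ (1 / (2 + ε)) ≤ |(x j : ℝ)| := by
    intro j hj'
    have h1 : (1 : ℝ) ≤ |(x j : ℝ)| := by linarith [hj'.2]
    calc |(x j : ℝ)| ^ (1 / (2 + ε)) ≤ |(x j : ℝ)| ^ (1 : ℝ) := by
          apply Real.rpow_le_rpow_of_exponent_le h1
          rw [div_le_one (by linarith)]; linarith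
      _ = |(x j : ℝ)| := Real.rpow_one _
  have hy2 : ∀ j ∈ M1, |(x j : ℝ)| ^ 3 / 2 ≤ (y j : ℝ) ^ 2 ∧
      (y j : ℝ) ^ 2 ≤ 2 * |(x j : ℝ)| ^ 3 := by
    intro j hj'
    have h1 := (hdx j hj').trans (hsq j hj')
    have h2 : 2 < |(x j : ℝ)| := hj'.2
    push_cast at h1
    have h3 : |(x j : ℝ) ^ 3| = |(x j : ℝ)| ^ 3 := abs_pow _ _
    have h4 : |(x j : ℝ)| ≤ |(x j : ℝ)| ^ 3 / 4 := by nlinarith [sq_nonneg (|(x j : ℝ)|)]
    have h5 := abs_le.mp h1
    -- x^3 positive
    have h6 : 0 ≤ (y j : ℝ) ^ 2 := sq_nonneg _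
    have h7 : 0 < (x j : ℝ) ^ 3 := by
      by_contra hneg
      push Not at hneg
      rw [abs_of_nonpos hneg] at h3
      nlinarith
    rw [abs_of_pos h7] at h3
    constructor <;> nlinarith
  have hxne : ∀ j ∈ M1, (x j : M) ≠ 0 := by
    intro j hj' h0
    have h2 : 2 < |(x j : ℝ)| := hj'.2
    have h3 : x j = 0 := by exact_mod_cast h0
    rw [h3] at h2; norm_num at h2
  have hyne : ∀ j ∈ M1, (y j : M) ≠ 0 := by
    intro j hj' h0
    have h2 : 2 < |(x j : ℝ)| := hj'.2
    have h3 := (hy2 j hj').1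
    have h4 : y j = 0 := by exact_mod_cast h0
    rw [h4] at h3
    have : 0 < |(x j : ℝ)| ^ 3 := by positivity
    push_cast at h3
    linarith [sq_nonneg (0 : ℝ)]
  obtain ⟨j0, hj0, -⟩ := (hlarge1 0).ex hM1inf
  have hXne : X ≠ 0 := by
    intro h; apply hxne j0 hj0; rw [← hevX j0 hj0, h, evM_zero]
  have hYne : Y ≠ 0 := by
    intro h; apply hyne j0 hj0; rw [← hevY j0 hj0, h, evM_zero]
  have hZne : Z ≠ 0 := by
    intro h
    have h1 := hevZ j0 hj0
    rw [h, evM_zero] at h1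
    apply hd0 j0 hj0
    have h2 : (y j0 ^ 2 - x j0 ^ 3 : ℤ) = 0 := by exact_mod_cast h1.symm
    rw [h2]; norm_num
  -- exponents
  set κ : ℝ := ε / (2 * (2 + ε)) with hκ
  have hκ0 : 0 < κ := by positivity
  set ε' : ℝ := κ / (2 * a * (1 + S.card)) with hε'
  have hε'0 : 0 < ε' := by positivity
  -- all W vanish
  have hW : ∀ δ : Fin r → ℤ, 2 * (X * drM δ Y) - 3 * (Y * drM δ X) = 0 := by
    intro δ
    set W : LauM M r := 2 * (X * drM δ Y) - 3 * (Y * drM δ X) with hWdef
    have hid : X * X * W = Y * drM δ Z - 2 * (Z * drM δ Y) := by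
      rw [hZ, drM_sub, drM_mul, drM_mul, drM_mul, hWdef]; ring
    have hevW : ∀ j ∈ M1, evM (w j) W
        = 2 * ((x j : M) * evM (w j) (drM δ Y)) - 3 * ((y j : M) * evM (w j) (drM δ X)) := by
      intro j hj'
      have h1 := map_sub (evR (w j) (hwp j hj')) (2 * (X * drM δ Y)) (3 * (Y * drM δ X))
      rw [map_mul, map_mul, map_mul, map_mul, map_ofNat, map_ofNat] at h1
      simp only [evR_apply, hevX j hj', hevY j hj'] at h1
      rw [hWdef, h1]
    have hevW2 : ∀ j ∈ M1, (x j : M) * x j * evM (w j) W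
        = (y j : M) * evM (w j) (drM δ Z)
          - 2 * (((y j ^ 2 - x j ^ 3 : ℤ) : M) * evM (w j) (drM δ Y)) := by
      intro j hj'
      have h1 := congrArg (evR (w j) (hwp j hj')) hid
      rw [map_sub, map_mul, map_mul, map_mul, map_mul, map_mul, map_ofNat] at h1
      simp only [evR_apply, hevX j hj', hevY j hj', hevZ j hj'] at h1
      exact h1
    by_contra hWne
    obtain ⟨c, hc, hcW⟩ := hNUM M S P r W hS
    -- bound at every place
    have hp : ∀ (v : Option ℕ) (σ : M ≃ₐ[ℚ] M), ∃ Kp : ℝ, 0 ≤ Kp ∧ (v ∈ plc S →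
        Evt M1 (fun j => P.nv v (σ (evM (w j) W))
          ≤ Kp * (H j ^ ε' * (if v = none then |(x j : ℝ)| ^ (-κ) else 1)))) := by
      intro v σ
      by_cases hvS : v ∈ plc S
      · cases v with
        | none =>
          obtain ⟨KZ, hKZ, hbZ⟩ := drM_bound hLAU2 P M1 w Z ε' H none σ hS hM1inf hε'0 hZne hI1
            hw1 hH1 hvn δ
          obtain ⟨KY, hKY, hbY⟩ := drM_bound hLAU2 P M1 w Y ε' H none σ hS hM1inf hε'0 hYne hI1
            hw1 hH1 hvn δ
          refine ⟨(KZ + 2 * KY) * 2, by positivity, fun _ => (hbZ.and hbY).mono ?_⟩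
          rintro j hj' ⟨hz, hy⟩
          rw [if_pos rfl]
          have hX2 : 2 < |(x j : ℝ)| := hj'.2
          have hXp : 0 < |(x j : ℝ)| := by linarith
          set t : ℝ := |(x j : ℝ)| with ht
          have hE : 0 < H j ^ ε' := Real.rpow_pos_of_pos (hHpos j hj') _
          rw [hevZ j hj', map_intCast, hnvn] at hz
          rw [hevY j hj', map_intCast, hnvn] at hy
          have hdj := hdx j hj'
          have h3 : t ^ 2 * P.nv none (σ (evM (w j) W))
              ≤ (KZ + 2 * KY) * H j ^ ε'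
                * (|(y j : ℝ)| * |((y j ^ 2 - x j ^ 3 : ℤ) : ℝ)|) := by
            have h4 : t ^ 2 * P.nv none (σ (evM (w j) W))
                = P.nv none (σ ((x j : M) * x j * evM (w j) W)) := by
              rw [map_mul, map_mul, map_intCast, P.mul none hvn, P.mul none hvn, hnvn, ← ht]
              ring
            rw [h4, hevW2 j hj', map_sub, map_mul, map_mul, map_mul, map_intCast, map_intCast,
              map_ofNat]
            have h5 := P.sub hvn ((y j : M) * σ (evM (w j) (drM δ Z)))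
              (2 * (((y j ^ 2 - x j ^ 3 : ℤ) : M) * σ (evM (w j) (drM δ Y))))
            refine h5.trans ?_
            rw [P.mul none hvn, P.mul none hvn, P.mul none hvn, hnvn, hnvn]
            have h7 : P.nv none (2 : M) = 2 := by
              have := hnvn 2
              push_cast at this
              rw [this]; norm_num
            rw [h7]
            have e1 : |(y j : ℝ)| * P.nv none (σ (evM (w j) (drM δ Z)))
                ≤ |(y j : ℝ)| * (KZ * H j ^ ε' * |((y j ^ 2 - x j ^ 3 : ℤ) : ℝ)|) :=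
              mul_le_mul_of_nonneg_left hz (abs_nonneg _)
            have e2 : 2 * (|((y j ^ 2 - x j ^ 3 : ℤ) : ℝ)| * P.nv none (σ (evM (w j) (drM δ Y))))
                ≤ 2 * (|((y j ^ 2 - x j ^ 3 : ℤ) : ℝ)| * (KY * H j ^ ε' * |(y j : ℝ)|)) := by
              refine mul_le_mul_of_nonneg_left ?_ (by norm_num)
              exact mul_le_mul_of_nonneg_left hy (abs_nonneg _)
            calc _ ≤ _ := add_le_add e1 e2
              _ = _ := by ring
          -- |y| ≤ 2 t^(3/2)
          have hyb : |(y j : ℝ)| ≤ 2 * t ^ (3 / 2 : ℝ) := by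
            apply abs_le_of_sq_le_sq' _ (by positivity) |> abs_le.mpr
            rw [mul_pow, ← Real.rpow_natCast (t ^ (3 / 2 : ℝ)) 2, ← Real.rpow_mul hXp.le]
            have : t ^ ((3 / 2 : ℝ) * ((2 : ℕ) : ℝ)) = t ^ 3 := by
              rw [← Real.rpow_natCast t 3]; norm_num
            rw [this]
            have := (hy2 j hj').2
            rw [← ht] at this
            have h3p : 0 < t ^ 3 := by positivity
            linarith
          have h10 : |(y j : ℝ)| * |((y j ^ 2 - x j ^ 3 : ℤ) : ℝ)|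
              ≤ 2 * (t ^ (3 / 2 : ℝ) * t ^ (1 / (2 + ε))) := by
            calc _ ≤ (2 * t ^ (3 / 2 : ℝ)) * t ^ (1 / (2 + ε)) :=
                  mul_le_mul hyb hdj (abs_nonneg _) (by positivity)
              _ = _ := by ring
          have h12 : t ^ 2 * P.nv none (σ (evM (w j) W))
              ≤ (KZ + 2 * KY) * H j ^ ε' * (2 * (t ^ (3 / 2 : ℝ) * t ^ (1 / (2 + ε)))) :=
            h3.trans (mul_le_mul_of_nonneg_left h10 (by positivity))
          have h13 : t ^ (-2 : ℝ) * t ^ 2 = 1 := by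
            rw [← Real.rpow_natCast t 2, ← Real.rpow_add hXp]; norm_num
          have h14 : 0 < t ^ (-2 : ℝ) := Real.rpow_pos_of_pos hXp _
          have h17 : t ^ (3 / 2 : ℝ) * t ^ (1 / (2 + ε)) * t ^ (-2 : ℝ) = t ^ (-κ) := by
            rw [← Real.rpow_add hXp, ← Real.rpow_add hXp]
            congr 1
            rw [hκ]
            field_simp
            ring
          calc P.nv none (σ (evM (w j) W))
              = t ^ (-2 : ℝ) * (t ^ 2 * P.nv none (σ (evM (w j) W))) := by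
                rw [← mul_assoc, h13, one_mul]
            _ ≤ t ^ (-2 : ℝ) * ((KZ + 2 * KY) * H j ^ ε'
                * (2 * (t ^ (3 / 2 : ℝ) * t ^ (1 / (2 + ε))))) :=
                mul_le_mul_of_nonneg_left h12 h14.le
            _ = (KZ + 2 * KY) * 2 * (H j ^ ε'
                * (t ^ (3 / 2 : ℝ) * t ^ (1 / (2 + ε)) * t ^ (-2 : ℝ))) := by ring
            _ = _ := by rw [h17]
        | some p =>
          have hpS : p ∈ S := of_mem_some hvS
          obtain ⟨K1, hK1, hb1⟩ := drM_bound hLAU2 P M1 w X ε' H (some p) σ hS hM1inf hε'0 hXne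
            hI1 hw1 hH1 hvS δ
          obtain ⟨K2, hK2, hb2⟩ := drM_bound hLAU2 P M1 w Y ε' H (some p) σ hS hM1inf hε'0 hYne
            hI1 hw1 hH1 hvS δ
          refine ⟨K1 + K2, by positivity, fun _ => (hb1.and hb2).mono ?_⟩
          rintro j hj' ⟨h1, h2⟩
          rw [if_neg (by simp), mul_one]
          have hE : 0 < H j ^ ε' := Real.rpow_pos_of_pos (hHpos j hj') _
          rw [hevX j hj', map_intCast] at h1
          rw [hevY j hj', map_intCast] at h2
          have hxi : P.nv (some p) (x j : M) ≤ 1 := P.int_le hAV hS hpS _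
          have hyi : P.nv (some p) (y j : M) ≤ 1 := P.int_le hAV hS hpS _
          have h2i : P.nv (some p) (2 : M) ≤ 1 := by
            have := P.int_le hAV hS hpS 2
            push_cast at this
            exact this
          have h3i : P.nv (some p) (-3 : M) ≤ 1 := by
            have := P.int_le hAV hS hpS (-3)
            push_cast at this
            exact this
          have hA : P.nv (some p) (2 * ((x j : M) * σ (evM (w j) (drM δ Y))))
              ≤ (K1 + K2) * H j ^ ε' := by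
            rw [P.mul _ hvS, P.mul _ hvS]
            calc P.nv (some p) (2 : M)
                * (P.nv (some p) (x j : M) * P.nv (some p) (σ (evM (w j) (drM δ Y))))
                ≤ 1 * (1 * (K2 * H j ^ ε' * P.nv (some p) (y j : M))) := by
                  refine mul_le_mul h2i ?_ (mul_nonneg (P.nn _ _) (P.nn _ _)) zero_le_one
                  exact mul_le_mul hxi h2 (P.nn _ _) zero_le_one
              _ = K2 * H j ^ ε' * P.nv (some p) (y j : M) := by ring
              _ ≤ K2 * H j ^ ε' * 1 := mul_le_mul_of_nonneg_left hyi (by positivity)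
              _ ≤ (K1 + K2) * H j ^ ε' := by nlinarith
          have hB : P.nv (some p) (-3 * ((y j : M) * σ (evM (w j) (drM δ X))))
              ≤ (K1 + K2) * H j ^ ε' := by
            rw [P.mul _ hvS, P.mul _ hvS]
            calc P.nv (some p) (-3 : M)
                * (P.nv (some p) (y j : M) * P.nv (some p) (σ (evM (w j) (drM δ X))))
                ≤ 1 * (1 * (K1 * H j ^ ε' * P.nv (some p) (x j : M))) := by
                  refine mul_le_mul h3i ?_ (mul_nonneg (P.nn _ _) (P.nn _ _)) zero_le_one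
                  exact mul_le_mul hyi h1 (P.nn _ _) zero_le_one
              _ = K1 * H j ^ ε' * P.nv (some p) (x j : M) := by ring
              _ ≤ K1 * H j ^ ε' * 1 := mul_le_mul_of_nonneg_left hxi (by positivity)
              _ ≤ (K1 + K2) * H j ^ ε' := by nlinarith
          have hsum := P.ult p hpS (2 * ((x j : M) * σ (evM (w j) (drM δ Y))))
            (-3 * ((y j : M) * σ (evM (w j) (drM δ X))))
          have heq : σ (evM (w j) W) = 2 * ((x j : M) * σ (evM (w j) (drM δ Y)))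
              + -3 * ((y j : M) * σ (evM (w j) (drM δ X))) := by
            rw [hevW j hj', map_sub, map_mul, map_mul, map_mul, map_mul, map_intCast, map_intCast,
              map_ofNat, map_ofNat]
            ring
          rw [heq]
          exact hsum.trans (max_le hA hB)
      · exact ⟨0, le_rfl, fun h => absurd h hvS⟩
    choose Kp hKp0 hKp using hp
    set K0 : ℝ := ∏ v ∈ plc S, ∏ σ : M ≃ₐ[ℚ] M, Kp v σ with hK0
    have hK0n : 0 ≤ K0 := Finset.prod_nonneg fun v _ => Finset.prod_nonneg fun σ _ => hKp0 v σ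
    -- choose a bound
    obtain ⟨B, hB⟩ : ∃ B : ℝ, ∀ t : ℝ, B < t → K0 * t ^ (-(κ / 2)) < c := by
      have h1 : Filter.Tendsto (fun t : ℝ => K0 * t ^ (-(κ / 2))) Filter.atTop (nhds (K0 * 0)) :=
        (tendsto_rpow_neg_atTop (by positivity)).const_mul K0
      rw [mul_zero] at h1
      have h2 := h1.eventually (gt_mem_nhds hc)
      obtain ⟨B, hB⟩ := Filter.eventually_atTop.mp h2
      exact ⟨B, fun t ht => hB t ht.le⟩
    have hall := (Evt.all (plc S) (P := fun v j => ∀ σ ∈ (Finset.univ : Finset (M ≃ₐ[ℚ] M)),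
        P.nv v (σ (evM (w j) W))
          ≤ Kp v σ * (H j ^ ε' * (if v = none then |(x j : ℝ)| ^ (-κ) else 1)))
      (fun v hv => Evt.all Finset.univ fun σ _ => hKp v σ hv)).and (hlarge1 B)
    have hzero : Evt M1 (fun j => evM (w j) W = 0) := by
      refine hall.mono ?_
      rintro j hj' ⟨hpp, hBx⟩
      by_contra hne
      have h1 := hcW (w j) (fun k => (hw1 j hj' k).1) hne
      have hX2 : 2 < |(x j : ℝ)| := hj'.2
      have hXp : 0 < |(x j : ℝ)| := by linarith
      set t : ℝ := |(x j : ℝ)| with ht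
      have hE : 0 < H j ^ ε' := Real.rpow_pos_of_pos (hHpos j hj') _
      set d : ℕ := Fintype.card (M ≃ₐ[ℚ] M) with hd
      have hd1 : d ≠ 0 := Fintype.card_ne_zero
      have h2 : ∏ v ∈ plc S, ∏ σ : M ≃ₐ[ℚ] M, P.nv v (σ (evM (w j) W))
          ≤ K0 * (∏ v ∈ plc S, (H j ^ ε' * (if v = none then t ^ (-κ) else 1))) ^ d := by
        calc ∏ v ∈ plc S, ∏ σ : M ≃ₐ[ℚ] M, P.nv v (σ (evM (w j) W))
            ≤ ∏ v ∈ plc S, ∏ σ : M ≃ₐ[ℚ] M,
              (Kp v σ * (H j ^ ε' * (if v = none then t ^ (-κ) else 1))) := by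
              refine Finset.prod_le_prod (fun v _ => Finset.prod_nonneg fun σ _ => P.nn _ _) ?_
              intro v hv
              exact Finset.prod_le_prod (fun σ _ => P.nn _ _) fun σ hσ => hpp v hv σ hσ
          _ = K0 * (∏ v ∈ plc S, (H j ^ ε' * (if v = none then t ^ (-κ) else 1))) ^ d := by
              rw [hK0, ← Finset.prod_pow, ← Finset.prod_mul_distrib]
              refine Finset.prod_congr rfl fun v _ => ?_
              rw [Finset.prod_mul_distrib, Finset.prod_const, Finset.card_univ]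
      have h3 : ∏ v ∈ plc S, (H j ^ ε' * (if v = none then t ^ (-κ) else 1)) = t ^ (-(κ / 2)) := by
        rw [plc, Finset.prod_insertNone, if_pos rfl]
        have h4 : ∏ p ∈ S, (H j ^ ε' * (if (some p : Option ℕ) = none then t ^ (-κ) else 1))
            = (H j ^ ε') ^ S.card := by
          rw [Finset.prod_congr rfl (g := fun _ => H j ^ ε') fun p _ => by
            rw [if_neg (by simp), mul_one], Finset.prod_const]
        rw [h4]
        have e1 : (H j ^ ε') ^ (S.card + 1) = t ^ (κ / 2) := by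
          rw [hH]
          simp only
          rw [← ht, ← Real.rpow_mul hXp.le, ← Real.rpow_natCast, ← Real.rpow_mul hXp.le]
          congr 1
          rw [hε']
          have : (0 : ℝ) < 1 + S.card := by positivity
          push_cast
          field_simp
          ring
        calc H j ^ ε' * t ^ (-κ) * (H j ^ ε') ^ S.card
            = (H j ^ ε') ^ (S.card + 1) * t ^ (-κ) := by ring
          _ = t ^ (-(κ / 2)) := by
              rw [e1, ← Real.rpow_add hXp]
              congr 1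
              ring
      rw [h3] at h2
      have h5 : t ^ (-(κ / 2)) ≤ 1 := Real.rpow_le_one_of_one_le_of_nonpos (by linarith)
        (by linarith)
      have h6 : 0 ≤ t ^ (-(κ / 2)) := (Real.rpow_pos_of_pos hXp _).le
      have h7 : (t ^ (-(κ / 2))) ^ d ≤ t ^ (-(κ / 2)) := pow_le_of_le_one h6 h5 hd1
      have h8 := hB t hBx
      have h9 : K0 * (t ^ (-(κ / 2))) ^ d ≤ K0 * t ^ (-(κ / 2)) :=
        mul_le_mul_of_nonneg_left h7 hK0n
      linarith
    exact hWne (eq_zero_of_evt hLAU2 P M1 w W H hS hM1inf hI1 hw1 hH1 hzero)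
  -- Z is a multiple of Y^2
  have hprop : ∀ δ : Fin r → ℤ, Z * drM δ (Y * Y) = (Y * Y) * drM δ Z := by
    intro δ
    have h1 := hW δ
    rw [hZ, drM_sub, drM_mul, drM_mul, drM_mul]
    have h2 : (Y * Y - X * X * X) * (Y * drM δ Y + drM δ Y * Y)
        - Y * Y * (Y * drM δ Y + drM δ Y * Y - (X * X * drM δ X + (X * drM δ X + drM δ X * X) * X))
        = - (X * X * Y) * (2 * (X * drM δ Y) - 3 * (Y * drM δ X)) := by ring
    rw [h1, mul_zero] at h2
    exact sub_eq_zero.mp h2
  have hYYne : Y * Y ≠ 0 := by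
    intro h
    have h1 := congrArg (evR (w j0) (hwp j0 hj0)) h
    rw [map_mul, map_zero] at h1
    simp only [evR_apply, hevY j0 hj0] at h1
    exact hyne j0 hj0 (mul_self_eq_zero.mp h1)
  obtain ⟨c, hc⟩ := hLAU1 M r Z (Y * Y) hYYne hprop
  have hval : ∀ j ∈ M1, |((y j ^ 2 - x j ^ 3 : ℤ) : ℝ)| = P.nv none c * (y j : ℝ) ^ 2 := by
    intro j hj'
    have h1 := hevZ j hj'
    rw [hc, evM_smul, evM_mul _ (hwp j hj'), hevY j hj'] at h1
    rw [← hnvn, ← h1, P.mul none hvn, P.mul none hvn, hnvn, abs_mul_abs_self, sq]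
  have hcne : P.nv none c ≠ 0 := by
    intro h
    apply hd0 j0 hj0
    have := hval j0 hj0
    rw [h, zero_mul] at this
    exact abs_eq_zero.mp this
  have hcp : 0 < P.nv none c := lt_of_le_of_ne (P.nn _ _) (Ne.symm hcne)
  obtain ⟨j, hj', hbig⟩ := (hlarge1 (2 / P.nv none c)).ex hM1inf
  have hX2 : 2 < |(x j : ℝ)| := hj'.2
  have h1 := (hdx j hj').trans (hsq j hj')
  rw [hval j hj'] at h1
  have h2 := (hy2 j hj').1
  have h3 : P.nv none c * (|(x j : ℝ)| ^ 3 / 2) ≤ |(x j : ℝ)| :=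
    (mul_le_mul_of_nonneg_left h2 hcp.le).trans h1
  rw [div_lt_iff₀ hcp] at hbig
  have h4 : 1 < |(x j : ℝ)| * |(x j : ℝ)| := by nlinarith
  have h5 : 0 < |(x j : ℝ)| := by linarith
  have h6 : 2 * |(x j : ℝ)| < |(x j : ℝ)| * P.nv none c * |(x j : ℝ)| :=
    mul_lt_mul_of_pos_right hbig h5
  have h7 : |(x j : ℝ)| * P.nv none c * |(x j : ℝ)|
      ≤ P.nv none c * |(x j : ℝ)| ^ 3 := by
    have : |(x j : ℝ)| ^ 2 ≤ |(x j : ℝ)| ^ 3 := by nlinarith [sq_nonneg (|(x j : ℝ)|)]
    nlinarith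
  linarith

end Pool.Agent.Helper66.SUBK
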