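import Pool.Agent.Helper77.SUBK.SheetK

/-! Project SUBK, row LAUBM: evaluation of Laurent polynomials over `M` is a ring homomorphism,
`drM` is a derivation. -/

set_option autoImplicit false

namespace Pool.Agent.Helper66.SUBK

open Finset Pool.Agent.Helper70.SUB Pool.Agent.Helper77.SUBK

variable {M : Type} [Field M] {r : ℕ}

theorem monM_add (w : Fin r → M) (hw : ∀ k, w k ≠ 0) (m m' : Fin r → ℤ) :
    monM w (m + m') = monM w m * monM w m' := by
  unfold monM
  rw [← Finset.prod_mul_distrib]
  exact Finset.prod_congr rfl fun k _ => by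
    rw [Pi.add_apply, zpow_add₀ (hw k)]

theorem evM_eq (w : Fin r → M) (F : LauM M r) :
    evM w F = F.coeff.sum fun m c => c * monM w m := rfl

theorem evM_single (w : Fin r → M) (m : Fin r → ℤ) (c : M) :
    evM w (AddMonoidAlgebra.single m c) = c * monM w m := by
  rw [evM_eq, AddMonoidAlgebra.coeff_single]
  exact Finsupp.sum_single_index (by simp)

theorem evM_add (w : Fin r → M) (F G : LauM M r) : evM w (F + G) = evM w F + evM w G := by
  rw [evM_eq, evM_eq, evM_eq, AddMonoidAlgebra.coeff_add]
  exact Finsupp.sum_add_index' (by intro m; simp) (by intro m a b; ring)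

theorem evM_zero (w : Fin r → M) : evM w (0 : LauM M r) = 0 := by
  rw [evM_eq, AddMonoidAlgebra.coeff_zero]; simp

theorem evM_smul (w : Fin r → M) (c : M) (F : LauM M r) : evM w (c • F) = c * evM w F := by
  rw [evM_eq, evM_eq, AddMonoidAlgebra.coeff_smul, Finsupp.sum_smul_index (by intro m; simp),
    Finsupp.mul_sum]
  exact Finset.sum_congr rfl fun m _ => by ring

theorem evM_mul (w : Fin r → M) (hw : ∀ k, w k ≠ 0) (F G : LauM M r) :
    evM w (F * G) = evM w F * evM w G := by
  induction F using AddMonoidAlgebra.induction_linear with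
  | zero => rw [zero_mul, evM_zero, zero_mul]
  | add F F' h h' => rw [add_mul, evM_add, evM_add, h, h', add_mul]
  | single m c =>
    induction G using AddMonoidAlgebra.induction_linear with
    | zero => rw [mul_zero, evM_zero, mul_zero]
    | add G G' h h' => rw [mul_add, evM_add, evM_add, h, h', mul_add]
    | single m' c' =>
      rw [AddMonoidAlgebra.single_mul_single, evM_single, evM_single, evM_single, monM_add w hw]
      ring

theorem coeff_drM (δ : Fin r → ℤ) (F : LauM M r) (m : Fin r → ℤ) :
    (drM δ F).coeff m = ((∑ k, δ k * m k : ℤ) : M) * F.coeff m := by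
  classical
  unfold drM
  rw [AddMonoidAlgebra.coeff_sum, Finsupp.finsetSum_apply]
  simp only [AddMonoidAlgebra.coeff_single, Finsupp.single_apply]
  rw [Finset.sum_ite_eq']
  split_ifs with h
  · rfl
  · rw [Finsupp.notMem_support_iff.mp h, mul_zero]

theorem drM_single (δ : Fin r → ℤ) (m : Fin r → ℤ) (c : M) :
    drM δ (AddMonoidAlgebra.single m c)
      = AddMonoidAlgebra.single m (((∑ k, δ k * m k : ℤ) : M) * c) := by
  classical
  apply AddMonoidAlgebra.ext
  ext m'
  rw [coeff_drM, AddMonoidAlgebra.coeff_single, AddMonoidAlgebra.coeff_single,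
    Finsupp.single_apply, Finsupp.single_apply]
  split_ifs with h
  · rw [h]
  · rw [mul_zero]

theorem drM_add (δ : Fin r → ℤ) (F G : LauM M r) : drM δ (F + G) = drM δ F + drM δ G := by
  apply AddMonoidAlgebra.ext
  ext m'
  rw [coeff_drM, AddMonoidAlgebra.coeff_add, AddMonoidAlgebra.coeff_add, Finsupp.add_apply,
    Finsupp.add_apply, coeff_drM, coeff_drM, mul_add]

theorem drM_zero (δ : Fin r → ℤ) : drM δ (0 : LauM M r) = 0 := by
  apply AddMonoidAlgebra.ext
  ext m'
  rw [coeff_drM, AddMonoidAlgebra.coeff_zero]; simp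

theorem drM_mul (δ : Fin r → ℤ) (F G : LauM M r) :
    drM δ (F * G) = F * drM δ G + drM δ F * G := by
  induction F using AddMonoidAlgebra.induction_linear with
  | zero => rw [zero_mul, drM_zero, zero_mul, zero_mul, add_zero]
  | add F F' h h' => rw [add_mul, drM_add, drM_add, h, h', add_mul, add_mul]; abel
  | single m c =>
    induction G using AddMonoidAlgebra.induction_linear with
    | zero => rw [mul_zero, drM_zero, mul_zero, mul_zero, add_zero]
    | add G G' h h' => rw [mul_add, drM_add, drM_add, h, h', mul_add, mul_add]; abel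
    | single m' c' =>
      rw [AddMonoidAlgebra.single_mul_single, drM_single, drM_single, drM_single,
        AddMonoidAlgebra.single_mul_single, AddMonoidAlgebra.single_mul_single,
        ← AddMonoidAlgebra.single_add]
      congr 1
      have : ((∑ k, δ k * (m + m') k : ℤ) : M)
          = ((∑ k, δ k * m k : ℤ) : M) + ((∑ k, δ k * m' k : ℤ) : M) := by
        rw [← Int.cast_add, ← Finset.sum_add_distrib]
        congr 1
        exact Finset.sum_congr rfl fun k _ => by rw [Pi.add_apply]; ring
      rw [this]; ring

theorem LAUBM : ST_LAUBM := by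
  intro M _ r
  refine ⟨fun w hw => ⟨monM_add w hw, evM_single w, evM_add w, evM_smul w, evM_mul w hw⟩,
    fun δ => ⟨drM_single δ, drM_add δ, drM_mul δ, coeff_drM δ⟩⟩

end Pool.Agent.Helper66.SUBK
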