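import Pool.Agent.Helper77.SUBK.SheetP
import Pool.Agent.Helper69.SUB.SIEG
import Mathlib.Analysis.Matrix.Normed

/-!
Project SUBK, row SIEGM: the auxiliary polynomial over a number field.
-/

set_option autoImplicit false

namespace Pool.Agent.Helper66.SUBK

open Finset Pool.Agent.Helper70.SUB Pool.Agent.Helper77.SUBK
open Pool.Agent.Helper69.SUB (Jt Jt_apply Jt_inj Jt_of Mon mem_Mon card_Mon Pl Pl_coeff Pl_supp
  MH_of MH_mono l1_mono Bad card_Bad Mon_pos siegel)

/-! ### the regular representation -/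

section rep

/-- the regular representation of `M` over `ℚ` -/
noncomputable def rg (M : Type) [Field M] [NumberField M] :
    M →ₐ[ℚ] Matrix (Fin (Module.finrank ℚ M)) (Fin (Module.finrank ℚ M)) ℚ :=
  Algebra.leftMulMatrix (Module.finBasis ℚ M)

variable {M : Type} [Field M] [NumberField M]

theorem rg_inj : Function.Injective (rg M) := Algebra.leftMulMatrix_injective _

attribute [local instance] Matrix.linftyOpNormedRing

/-- the operator norm of the regular representation -/
noncomputable def nu (x : M) : ℝ := ‖rg M x‖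

theorem nu_nn (x : M) : 0 ≤ nu x := norm_nonneg _

theorem nu_zero : nu (0 : M) = 0 := by
  unfold nu
  rw [map_zero, norm_zero]

theorem nu_mul (x y : M) : nu (x * y) ≤ nu x * nu y := by
  unfold nu
  rw [map_mul]
  exact norm_mul_le _ _

theorem nu_add (x y : M) : nu (x + y) ≤ nu x + nu y := by
  unfold nu
  rw [map_add]
  exact norm_add_le _ _

theorem nu_int (z : ℤ) : nu (z : M) ≤ |(z : ℝ)| := by
  unfold nu
  rw [map_intCast, ← Matrix.diagonal_intCast, Matrix.linfty_opNorm_diagonal]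
  refine (pi_norm_le_iff_of_nonneg (abs_nonneg _)).2 fun i => ?_
  simp [Int.norm_eq_abs]

theorem nu_entry (x : M) (i j : Fin (Module.finrank ℚ M)) :
    |((rg M x i j : ℚ) : ℝ)| ≤ nu x := by
  unfold nu
  rw [Matrix.linfty_opNorm_def]
  have h1 : ‖rg M x i j‖₊ ≤ ∑ j, ‖rg M x i j‖₊ :=
    Finset.single_le_sum (f := fun j => ‖rg M x i j‖₊) (fun _ _ => zero_le) (mem_univ j)
  have h2 : ∑ j, ‖rg M x i j‖₊ ≤ (Finset.univ : Finset _).sup fun i => ∑ j, ‖rg M x i j‖₊ :=
    Finset.le_sup (f := fun i => ∑ j, ‖rg M x i j‖₊) (mem_univ i)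
  have h3 : (‖rg M x i j‖₊ : ℝ) ≤
      (((Finset.univ : Finset _).sup fun i => ∑ j, ‖rg M x i j‖₊ : NNReal) : ℝ) := by
    exact_mod_cast h1.trans h2
  rw [coe_nnnorm] at h3
  exact h3

end rep

/-! ### elements with an integral representation -/

section int

variable {M : Type} [Field M] [NumberField M]

/-- the elements whose matrices are integral -/
noncomputable def RI (M : Type) [Field M] [NumberField M] : Subring M :=
  (((Int.castRingHom ℚ).mapMatrix :
    Matrix (Fin (Module.finrank ℚ M)) (Fin (Module.finrank ℚ M)) ℤ →+* _).range).comap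
    (rg M : M →+* Matrix (Fin (Module.finrank ℚ M)) (Fin (Module.finrank ℚ M)) ℚ)

theorem mem_RI {x : M} : x ∈ RI M ↔ ∀ i j, ∃ z : ℤ, (z : ℚ) = rg M x i j := by
  unfold RI
  rw [Subring.mem_comap, RingHom.mem_range]
  constructor
  · rintro ⟨Z, hZ⟩ i j
    refine ⟨Z i j, ?_⟩
    have := congrFun (congrFun hZ i) j
    simpa using this
  · intro h
    choose z hz using h
    refine ⟨Matrix.of z, ?_⟩
    ext i j
    simp [hz i j]

theorem exists_den {ι : Type} [Fintype ι] (f : ι → M) :
    ∃ D : ℕ, 1 ≤ D ∧ ∀ i, (D : M) * f i ∈ RI M := by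
  classical
  set g : ι × Fin (Module.finrank ℚ M) × Fin (Module.finrank ℚ M) → ℕ :=
    fun q => (rg M (f q.1) q.2.1 q.2.2).den with hg
  refine ⟨∏ q, g q, Nat.one_le_iff_ne_zero.mpr (Finset.prod_ne_zero_iff.mpr fun q _ =>
    Rat.den_ne_zero _), fun i => mem_RI.2 fun a b => ?_⟩
  obtain ⟨t, ht⟩ : g (i, a, b) ∣ ∏ q, g q := Finset.dvd_prod_of_mem g (mem_univ (i, a, b))
  refine ⟨t * (rg M (f i) a b).num, ?_⟩
  have h1 : ((rg M (f i) a b).den : ℚ) * rg M (f i) a b = (rg M (f i) a b).num :=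
    Rat.den_mul_eq_num _
  have h2 : rg M (((∏ q, g q : ℕ) : M) * f i) a b = ((∏ q, g q : ℕ) : ℚ) * rg M (f i) a b := by
    rw [map_mul, map_natCast]
    rw [← Matrix.diagonal_natCast, Matrix.diagonal_mul]
  rw [h2, ht]
  have h3 : g (i, a, b) = (rg M (f i) a b).den := rfl
  rw [h3]
  push_cast
  rw [← h1]
  ring

/-- the integral entries -/
noncomputable def en (x : M) (i j : Fin (Module.finrank ℚ M)) : ℤ := (rg M x i j).num

theorem en_cast {x : M} (hx : x ∈ RI M) (i j : Fin (Module.finrank ℚ M)) :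
    ((en x i j : ℤ) : ℚ) = rg M x i j := by
  obtain ⟨z, hz⟩ := mem_RI.1 hx i j
  unfold en
  rw [← hz, Rat.num_intCast]

end int

/-! ### substitutions -/

theorem lsub_map {R R' : Type} [CommRing R] [CommRing R'] (f : R →+* R') {m n : ℕ}
    (N : Matrix (Fin n) (Fin n) R) (P : MvPolynomial (Fin m × Fin n) R) :
    MvPolynomial.map f (lsub N P) = lsub (N.map f) (MvPolynomial.map f P) := by
  have h : (MvPolynomial.map f : MvPolynomial (Fin m × Fin n) R →+* _).comp
      (lsub N : MvPolynomial (Fin m × Fin n) R →ₐ[R] _).toRingHom =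
      (lsub (N.map f) : MvPolynomial (Fin m × Fin n) R' →ₐ[R'] _).toRingHom.comp
        (MvPolynomial.map f : MvPolynomial (Fin m × Fin n) R →+* _) := by
    apply MvPolynomial.ringHom_ext
    · intro z
      simp [lsub]
    · intro i
      simp [lsub]
  exact DFunLike.congr_fun h P

/-- scaling of the variables -/
noncomputable def scl {σ R : Type} [CommRing R] (c : R) : MvPolynomial σ R →ₐ[R] MvPolynomial σ R :=
  MvPolynomial.aeval fun s => MvPolynomial.C c * MvPolynomial.X s

theorem scl_coeff {σ R : Type} [CommRing R] (c : R) (P : MvPolynomial σ R) (J : σ →₀ ℕ) :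
    (scl c P).coeff J = c ^ J.degree * P.coeff J := by
  classical
  induction P using MvPolynomial.induction_on' with
  | monomial d a =>
    have h1 : scl c (MvPolynomial.monomial d a) = MvPolynomial.monomial d (c ^ d.degree * a) := by
      unfold scl
      rw [MvPolynomial.aeval_monomial]
      have h2 : (d.prod fun i k => (MvPolynomial.C c * MvPolynomial.X i : MvPolynomial σ R) ^ k) =
          MvPolynomial.C (c ^ d.degree) * d.prod fun i k => MvPolynomial.X i ^ k := by
        unfold Finsupp.prod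
        simp_rw [mul_pow]
        rw [Finset.prod_mul_distrib, Finset.prod_pow_eq_pow_sum, MvPolynomial.C_pow]
        rfl
      rw [h2, MvPolynomial.algebraMap_eq, ← mul_assoc, ← MvPolynomial.C_mul,
        MvPolynomial.monomial_eq, mul_comm a]
    rw [h1, MvPolynomial.coeff_monomial, MvPolynomial.coeff_monomial]
    split_ifs with h
    · rw [h]
    · rw [mul_zero]
  | add p q hp hq =>
    rw [map_add, MvPolynomial.coeff_add, MvPolynomial.coeff_add, hp, hq, mul_add]

theorem lsub_smul {m n : ℕ} {R : Type} [CommRing R] (c : R) (N : Matrix (Fin n) (Fin n) R)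
    (P : MvPolynomial (Fin m × Fin n) R) (J : Fin m × Fin n →₀ ℕ) :
    (lsub (c • N) P).coeff J = c ^ J.degree * (lsub N P).coeff J := by
  have h : lsub (c • N) = (scl c).comp (lsub N : MvPolynomial (Fin m × Fin n) R →ₐ[R] _) := by
    apply MvPolynomial.algHom_ext
    intro i
    simp only [lsub, scl, MvPolynomial.aeval_X, AlgHom.comp_apply, map_sum, map_mul,
      Matrix.smul_apply, smul_eq_mul, MvPolynomial.aeval_C, MvPolynomial.algebraMap_eq]
    refine Finset.sum_congr rfl fun k _ => by ring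
  rw [h, AlgHom.comp_apply, scl_coeff]

section sys

variable {M : Type} [Field M] [NumberField M]

omit [NumberField M] in
theorem lsub_PlM {m n : ℕ} (r : Fin m → ℕ) (x : Mon n r → ℤ) (N : Matrix (Fin n) (Fin n) M)
    (J : Fin m × Fin n →₀ ℕ) : (lsub N (toM (Pl r x))).coeff J =
      ∑ t : Mon n r, (lsub N (toM (MvPolynomial.monomial (Jt t.1) (1 : ℤ)))).coeff J * (x t : M) := by
  unfold Pl
  rw [map_sum, map_sum, MvPolynomial.coeff_sum]
  refine Finset.sum_congr rfl fun t _ => ?_
  have h1 : (toM (MvPolynomial.monomial (Jt t.1) (x t)) : MvPolynomial (Fin m × Fin n) M) =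
      (x t : M) • toM (MvPolynomial.monomial (Jt t.1) (1 : ℤ)) := by
    unfold toM
    rw [MvPolynomial.map_monomial, MvPolynomial.map_monomial, MvPolynomial.smul_monomial]
    simp
  rw [h1, map_smul, MvPolynomial.coeff_smul, smul_eq_mul, mul_comm]

/-- the coefficients stay in the subring -/
theorem coeff_mem {m n : ℕ} (N : Matrix (Fin n) (Fin n) M) (hN : ∀ i k, N i k ∈ RI M)
    (F : MvPolynomial (Fin m × Fin n) ℤ) (J : Fin m × Fin n →₀ ℕ) :
    (lsub N (toM F)).coeff J ∈ RI M := by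
  let N' : Matrix (Fin n) (Fin n) (RI M) := fun i k => ⟨N i k, hN i k⟩
  have h1 : N'.map (RI M).subtype = N := by
    ext i k
    rfl
  have h2 : (toM F : MvPolynomial (Fin m × Fin n) M) =
      MvPolynomial.map (RI M).subtype (MvPolynomial.map (Int.castRingHom (RI M)) F) := by
    unfold toM
    rw [MvPolynomial.map_map]
    congr 1
  rw [h2, ← h1, ← lsub_map, MvPolynomial.coeff_map]
  exact (MvPolynomial.coeff J (lsub N' (MvPolynomial.map (Int.castRingHom (RI M)) F))).2

end sys

theorem SIEGM (hCH : ST_CHEB) (hME : ST_MEAN) (hLSB : ST_LSBM) : ST_SIEGM := by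
  classical
  intro M _ _ n κ _ N0 ε hn hε
  have hn' : (1 : ℝ) ≤ n := by exact_mod_cast hn
  set d := Module.finrank ℚ M with hd
  have hd1 : 1 ≤ d := Module.finrank_pos
  -- common denominator
  obtain ⟨D, hD1, hD⟩ := exists_den (M := M) (fun q : κ × Fin n × Fin n => N0 q.1 q.2.1 q.2.2)
  have hD0 : (D : M) ≠ 0 := by
    have : D ≠ 0 := by omega
    exact_mod_cast this
  set N : κ → Matrix (Fin n) (Fin n) M := fun v => (D : M) • N0 v with hNdef
  have hN : ∀ v i k, N v i k ∈ RI M := fun v i k => hD (v, i, k)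
  -- bound of the entries
  obtain ⟨a, ha1, ha⟩ : ∃ a : ℝ, 1 ≤ a ∧ ∀ v i k, nu (N v i k) ≤ a := by
    refine ⟨1 + ∑ v, ∑ i, ∑ k, nu (N v i k), ?_, fun v i k => ?_⟩
    · have : 0 ≤ ∑ v, ∑ i, ∑ k, nu (N v i k) :=
        Finset.sum_nonneg fun _ _ => Finset.sum_nonneg fun _ _ =>
          Finset.sum_nonneg fun _ _ => nu_nn _
      linarith
    · have h1 : nu (N v i k) ≤ ∑ k, nu (N v i k) :=
        Finset.single_le_sum (f := fun k => nu (N v i k)) (fun _ _ => nu_nn _) (mem_univ k)
      have h2 : ∑ k, nu (N v i k) ≤ ∑ i, ∑ k, nu (N v i k) :=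
        Finset.single_le_sum (f := fun i => ∑ k, nu (N v i k))
          (fun _ _ => Finset.sum_nonneg fun _ _ => nu_nn _) (mem_univ i)
      have h3 : ∑ i, ∑ k, nu (N v i k) ≤ ∑ v, ∑ i, ∑ k, nu (N v i k) :=
        Finset.single_le_sum (f := fun v => ∑ i, ∑ k, nu (N v i k))
          (fun _ _ => Finset.sum_nonneg fun _ _ => Finset.sum_nonneg fun _ _ => nu_nn _)
          (mem_univ v)
      linarith
  refine ⟨⌈2 * ((Fintype.card κ : ℝ) * (d * d)) * n / ε ^ 2⌉₊, fun m hm => ?_⟩
  have hm' : 2 * ((Fintype.card κ : ℝ) * (d * d)) * n ≤ ε ^ 2 * m := by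
    have h1 : 2 * ((Fintype.card κ : ℝ) * (d * d)) * n / ε ^ 2 ≤ m :=
      (Nat.le_ceil _).trans (by exact_mod_cast hm)
    rw [div_le_iff₀ (by positivity)] at h1
    linarith
  have hna : (1 : ℝ) ≤ n * a := by nlinarith
  refine ⟨2 ^ n * (n * a), ?_, fun r hr => ?_⟩
  · have : (1 : ℝ) ≤ 2 ^ n := one_le_pow₀ (by norm_num)
    nlinarith
  -- the linear system
  let A : Matrix ((κ × Bad n r ε) × (Fin d × Fin d)) (Mon n r) ℤ := fun q t =>
    en ((lsub (N q.1.1) (toM (MvPolynomial.monomial (Jt t.1) (1 : ℤ)))).coeff (Jt q.1.2.1))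
      q.2.1 q.2.2
  have hmem : ∀ (v : κ) (t : Mon n r) (J : Fin m × Fin n →₀ ℕ),
      (lsub (N v) (toM (MvPolynomial.monomial (Jt t.1) (1 : ℤ)))).coeff J ∈ RI M :=
    fun v t J => coeff_mem _ (hN v) _ _
  have hA : ∀ i j, |(A i j : ℝ)| ≤ (n * a : ℝ) ^ (∑ h, r h) := by
    intro i j
    set P := (lsub (N i.1.1) (toM (MvPolynomial.monomial (Jt j.1) (1 : ℤ))) :
      MvPolynomial (Fin m × Fin n) M) with hP
    have h1 := (hLSB M nu nu_nn nu_zero nu_int nu_mul nu_add m n r
      (MvPolynomial.monomial (Jt j.1) (1 : ℤ)) (N i.1.1) a (by linarith) (ha i.1.1)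
      (MH_mono r j)).2.1
    rw [l1_mono, Int.cast_one, mul_one] at h1
    have h2 : nu (P.coeff (Jt i.1.2.1)) ≤ ∑ J ∈ P.support, nu (P.coeff J) := by
      by_cases hJ : Jt i.1.2.1 ∈ P.support
      · exact Finset.single_le_sum (f := fun J => nu (P.coeff J)) (fun _ _ => nu_nn _) hJ
      · rw [MvPolynomial.notMem_support_iff.1 hJ, nu_zero]
        exact Finset.sum_nonneg fun _ _ => nu_nn _
    have h3 : ((A i j : ℤ) : ℝ) = ((rg M (P.coeff (Jt i.1.2.1)) i.2.1 i.2.2 : ℚ) : ℝ) := by
      rw [← en_cast (hmem i.1.1 j (Jt i.1.2.1))]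
      push_cast
      rfl
    rw [h3]
    exact (nu_entry _ _ _).trans (h2.trans h1)
  have hcard : 2 * Fintype.card ((κ × Bad n r ε) × (Fin d × Fin d)) ≤ Fintype.card (Mon n r) := by
    rw [Fintype.card_prod, Fintype.card_prod, Fintype.card_prod, Fintype.card_coe,
      Fintype.card_coe, Fintype.card_fin]
    have h1 := card_Bad hCH hME r ε hn hε hr
    have h2 : ((Bad n r ε).card : ℝ) * (2 * ((Fintype.card κ : ℝ) * (d * d)) * n) ≤
        n * (Mon n r).card :=
      (mul_le_mul_of_nonneg_left hm' (Nat.cast_nonneg _)).trans h1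
    have h3 : 2 * ((Fintype.card κ : ℝ) * (Bad n r ε).card * (d * d)) ≤ (Mon n r).card := by
      have h4 : (n : ℝ) * (2 * ((Fintype.card κ : ℝ) * (Bad n r ε).card * (d * d))) ≤
          n * (Mon n r).card := by linarith
      exact le_of_mul_le_mul_left h4 (by linarith)
    exact_mod_cast h3
  have hpos : 0 < Fintype.card (Mon n r) := by
    rw [Fintype.card_coe]
    exact Mon_pos r hn
  obtain ⟨x, hx0, hx1, hx2⟩ := siegel A _ (one_le_pow₀ hna) hA hcard hpos
  refine ⟨Pl r x, ?_, ?_, ?_, ?_⟩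
  · intro h0
    apply hx0
    funext t
    rw [← Pl_coeff r x t, h0]
    simp
  · exact MH_of r _ (Pl_supp r x)
  · intro J
    by_cases hJ : (Pl r x).coeff J = 0
    · rw [hJ, Int.cast_zero, abs_zero]
      positivity
    · obtain ⟨t, rfl⟩ := Pl_supp r x J hJ
      rw [Pl_coeff]
      refine (hx2 t).trans ?_
      rw [Fintype.card_coe, mul_pow ((2 : ℝ) ^ n)]
      have h5 : ((Mon n r).card : ℝ) ≤ ((2 : ℝ) ^ n) ^ (∑ h, r h) := by
        exact_mod_cast card_Mon (n := n) r
      have h6 : (0 : ℝ) ≤ (n * a : ℝ) ^ (∑ h, r h) := by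
        have : (0 : ℝ) ≤ n * a := by linarith
        positivity
      exact mul_le_mul_of_nonneg_right h5 h6
  · intro v J hJ i
    have hMH : MH r (lsub (N0 v) (toM (Pl r x) : MvPolynomial (Fin m × Fin n) M)) := by
      obtain ⟨b, hb0, hb⟩ : ∃ b : ℝ, 0 ≤ b ∧ ∀ i k, nu (N0 v i k) ≤ b := by
        refine ⟨∑ i, ∑ k, nu (N0 v i k), Finset.sum_nonneg fun _ _ =>
          Finset.sum_nonneg fun _ _ => nu_nn _, fun i k => ?_⟩
        have h1 : nu (N0 v i k) ≤ ∑ k, nu (N0 v i k) :=
          Finset.single_le_sum (f := fun k => nu (N0 v i k)) (fun _ _ => nu_nn _) (mem_univ k)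
        have h2 : ∑ k, nu (N0 v i k) ≤ ∑ i, ∑ k, nu (N0 v i k) :=
          Finset.single_le_sum (f := fun i => ∑ k, nu (N0 v i k))
            (fun _ _ => Finset.sum_nonneg fun _ _ => nu_nn _) (mem_univ i)
        exact h1.trans h2
      exact (hLSB M nu nu_nn nu_zero nu_int nu_mul nu_add m n r (Pl r x) (N0 v) b hb0 hb
        (MH_of r _ (Pl_supp r x))).1
    have h1 : ∀ h, ∑ i, J (h, i) = r h := hMH J hJ
    have ht : (fun h i => J (h, i)) ∈ Mon n r := mem_Mon.2 h1
    by_contra hbad
    push Not at hbad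
    have hB : (fun h i => J (h, i)) ∈ Bad n r ε := by
      unfold Bad
      rw [Finset.mem_filter]
      refine ⟨ht, i, ?_⟩
      have h2 : ∑ h, ((J (h, i) : ℝ) / r h - 1 / n) = ∑ h, (J (h, i) : ℝ) / r h - m / n := by
        rw [Finset.sum_sub_distrib, Finset.sum_const, Finset.card_univ, Fintype.card_fin,
          nsmul_eq_mul]
        ring
      rw [h2]
      exact hbad
    -- the coefficient vanishes
    have h5 : (lsub (N v) (toM (Pl r x) : MvPolynomial (Fin m × Fin n) M)).coeff J = 0 := by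
      apply rg_inj
      rw [map_zero]
      ext p q
      have h3 := congrFun hx1 ((v, ⟨_, hB⟩), (p, q))
      rw [lsub_PlM, map_sum, Matrix.sum_apply, Matrix.zero_apply]
      have h4 : (A.mulVec x) ((v, ⟨_, hB⟩), (p, q)) = ∑ t : Mon n r,
          en ((lsub (N v) (toM (MvPolynomial.monomial (Jt t.1) (1 : ℤ)))).coeff J) p q * x t := by
        unfold Matrix.mulVec dotProduct
        refine Finset.sum_congr rfl fun t _ => ?_
        show en ((lsub (N v) (toM (MvPolynomial.monomial (Jt t.1) (1 : ℤ)))).coeff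
          (Jt fun h i => J (h, i))) p q * x t = _
        rw [Jt_of]
      rw [h4] at h3
      have h6 : ((∑ t : Mon n r,
          en ((lsub (N v) (toM (MvPolynomial.monomial (Jt t.1) (1 : ℤ)))).coeff J) p q * x t : ℤ)
            : ℚ) = 0 := by
        rw [h3]
        simp
      rw [← h6]
      push_cast
      refine Finset.sum_congr rfl fun t _ => ?_
      rw [map_mul, map_intCast, ← Matrix.diagonal_intCast, Matrix.mul_diagonal,
        en_cast (hmem v t J)]
    apply hJ
    have h7 := lsub_smul (D : M) (N0 v) (toM (Pl r x) : MvPolynomial (Fin m × Fin n) M) J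
    have h8 : (D : M) ^ J.degree * (lsub (N0 v) (toM (Pl r x) :
        MvPolynomial (Fin m × Fin n) M)).coeff J = 0 := by
      rw [← h7]
      exact h5
    exact (mul_eq_zero.1 h8).resolve_left (pow_ne_zero _ hD0)

end Pool.Agent.Helper66.SUBK
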