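import Pool.Agent.Helper77.SUBK.SheetG
import Pool.Agent.Helper94.SUBK.NEARX

/-!
Project SUBK, sheet G, row NXR: the two applications of the Subspace theorem.
-/

set_option autoImplicit false

namespace Pool.Agent.Helper66.SUBK

open Finset Pool.Agent.Helper70.SUB Pool.Agent.Helper77.SUBK
open Pool.Agent.Helper94.SUBK (padic_prod avs_nonneg avp_mul avp_int avp_pow)

/-- finitely many terms below a bound -/
theorem fin_le {M : Set ℕ} (x : ℕ → ℝ) (hj : ∀ j ∈ M, (j : ℝ) ≤ x j) (b : ℝ) :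
    {j | j ∈ M ∧ x j ≤ b}.Finite := by
  refine (Set.finite_le_nat ⌊b⌋₊).subset fun j hjj => ?_
  exact Nat.le_floor ((hj j hjj.1).trans hjj.2)

/-- vectors `(n ^ k P, m ^ k)` -/
theorem two_vec (hSUB : ST_SUBTQ) {S : Finset ℕ} (hS : ∀ p ∈ S, p.Prime) {M : Set ℕ}
    (hM : M.Infinite) (x : ℕ → ℝ) (hx : ∀ j ∈ M, 1 ≤ x j ∧ (j : ℝ) ≤ x j) (k : ℕ) {κ : ℝ}
    (hκ : IsAlgebraic ℚ κ) (P m n : ℕ → ℤ) (hm : ∀ j ∈ M, 0 < m j ∧ SU S (m j))
    (hn : ∀ j ∈ M, 0 < n j ∧ SU S (n j)) (B ε : ℝ) (hB : 0 < B) (hε : 0 < ε)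
    (hb1 : ∀ j ∈ M, |(n j : ℝ) ^ (k + 1) * P j| ≤ x j ^ B)
    (hb2 : ∀ j ∈ M, (m j : ℝ) ^ (k + 1) ≤ x j ^ B)
    (hs : ∀ j ∈ M, |(P j : ℝ) - κ * ((m j : ℝ) / n j) ^ (k + 1)| ≤ x j ^ (-ε)) :
    ∃ β : ℚ, {j | j ∈ M ∧ (P j : ℝ) = β * ((m j : ℝ) / n j) ^ (k + 1)}.Infinite := by
  obtain ⟨b, hb0, hinf⟩ := hSUB 2 S !![1, -κ; 0, 1] ε B M x
    (fun j => ![n j ^ (k + 1) * P j, m j ^ (k + 1)]) hS (by norm_num) (by
      intro i l
      fin_cases i <;> fin_cases l
      · exact isAlgebraic_one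
      · exact hκ.neg
      · exact isAlgebraic_zero
      · exact isAlgebraic_one) (by
      rw [Matrix.det_fin_two_of]
      norm_num) hε hB hM (fun b => fin_le x (fun j hj => (hx j hj).2) b) (by
      intro j hj
      have hmR : (0 : ℝ) < m j := by exact_mod_cast (hm j hj).1
      have hnR : (0 : ℝ) < n j := by exact_mod_cast (hn j hj).1
      refine ⟨(hx j hj).1, ?_, ?_⟩
      · intro i
        fin_cases i
        · simpa using hb1 j hj
        · have : |(m j : ℝ) ^ (k + 1)| ≤ x j ^ B := by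
            rw [abs_of_pos (by positivity)]
            exact hb2 j hj
          simpa using this
      · simp only [Fin.prod_univ_two, Fin.sum_univ_two, Matrix.of_apply, Matrix.cons_val_zero,
          Matrix.cons_val_one, Matrix.cons_val', Matrix.cons_val_fin_one]
        have hPm := padic_prod hS (hm j hj).2
        have hPn := padic_prod hS (hn j hj).2
        rw [abs_of_pos hmR] at hPm
        rw [abs_of_pos hnR] at hPn
        obtain ⟨pm, hpm⟩ : ∃ pm : ℝ, pm = ∏ p ∈ S, av (some p) (m j : ℚ) := ⟨_, rfl⟩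
        obtain ⟨pn, hpn⟩ : ∃ pn : ℝ, pn = ∏ p ∈ S, av (some p) (n j : ℚ) := ⟨_, rfl⟩
        rw [← hpm] at hPm
        rw [← hpn] at hPn
        have h4 : ∏ p ∈ S, (av (some p) ((n j ^ (k + 1) * P j : ℤ) : ℚ) *
            av (some p) ((m j ^ (k + 1) : ℤ) : ℚ)) ≤ pn ^ (k + 1) * pm ^ (k + 1) := by
          rw [hpm, hpn, ← Finset.prod_pow, ← Finset.prod_pow, ← Finset.prod_mul_distrib]
          apply Finset.prod_le_prod
          · intro p _
            exact mul_nonneg (avs_nonneg _ _) (avs_nonneg _ _)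
          · intro p hp
            push_cast
            rw [avp_mul hS hp, avp_pow hS hp, avp_pow hS hp]
            calc av (some p) (n j : ℚ) ^ (k + 1) * av (some p) (P j : ℚ) *
                  av (some p) (m j : ℚ) ^ (k + 1)
                ≤ av (some p) (n j : ℚ) ^ (k + 1) * 1 * av (some p) (m j : ℚ) ^ (k + 1) := by
                  gcongr
                  · exact pow_nonneg (avs_nonneg _ _) _
                  · exact pow_nonneg (avs_nonneg _ _) _
                  · exact avp_int hS hp _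
              _ = _ := by ring
        have h5 : 0 ≤ |(1 : ℝ) * ((n j ^ (k + 1) * P j : ℤ) : ℝ) + -κ * ((m j ^ (k + 1) : ℤ) : ℝ)| *
            |(0 : ℝ) * ((n j ^ (k + 1) * P j : ℤ) : ℝ) + 1 * ((m j ^ (k + 1) : ℤ) : ℝ)| := by
          positivity
        refine (mul_le_mul_of_nonneg_left h4 h5).trans ?_
        refine le_trans (le_of_eq ?_) (hs j hj)
        push_cast
        have h6 : (1 : ℝ) * ((n j : ℝ) ^ (k + 1) * P j) + -κ * (m j : ℝ) ^ (k + 1) =
            (n j : ℝ) ^ (k + 1) * (P j - κ * ((m j : ℝ) / n j) ^ (k + 1)) := by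
          rw [div_pow]
          field_simp
          ring
        have h7 : (0 : ℝ) * ((n j : ℝ) ^ (k + 1) * P j) + 1 * (m j : ℝ) ^ (k + 1) =
            (m j : ℝ) ^ (k + 1) := by ring
        rw [h6, h7, abs_mul, abs_of_pos (show (0 : ℝ) < (n j : ℝ) ^ (k + 1) by positivity),
          abs_of_pos (show (0 : ℝ) < (m j : ℝ) ^ (k + 1) by positivity)]
        calc (n j : ℝ) ^ (k + 1) * |(P j : ℝ) - κ * ((m j : ℝ) / n j) ^ (k + 1)| *
              (m j : ℝ) ^ (k + 1) * (pn ^ (k + 1) * pm ^ (k + 1))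
            = |(P j : ℝ) - κ * ((m j : ℝ) / n j) ^ (k + 1)| * ((n j : ℝ) * pn) ^ (k + 1) *
              ((m j : ℝ) * pm) ^ (k + 1) := by ring
          _ = _ := by rw [hPm, hPn]; ring)
  have hmz : ∀ j ∈ M, (m j : ℚ) ≠ 0 := fun j hj => by
    have := (hm j hj).1
    exact_mod_cast this.ne'
  have hnz : ∀ j ∈ M, (n j : ℚ) ≠ 0 := fun j hj => by
    have := (hn j hj).1
    exact_mod_cast this.ne'
  simp only [Fin.sum_univ_two, Matrix.cons_val_zero, Matrix.cons_val_one] at hinf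
  have hb00 : b 0 ≠ 0 := by
    intro h0
    have hb1 : b 1 ≠ 0 := by
      intro h1
      apply hb0
      funext i
      fin_cases i
      · exact h0
      · exact h1
    obtain ⟨j, hjM, hj0⟩ := hinf.nonempty
    rw [h0, zero_mul, zero_add] at hj0
    push_cast at hj0
    rcases mul_eq_zero.1 hj0 with h | h
    · exact hb1 h
    · exact hmz j hjM (pow_eq_zero_iff (by omega) |>.1 h)
  refine ⟨-(b 1) / b 0, hinf.mono fun j hj => ⟨hj.1, ?_⟩⟩
  have h1 := hj.2
  push_cast at h1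
  have h2 : (P j : ℚ) = -(b 1) / b 0 * ((m j : ℚ) / n j) ^ (k + 1) := by
    have := hnz j hj.1
    rw [div_pow]
    field_simp
    linarith
  exact_mod_cast h2

/-- the four-dimensional vectors -/
theorem four_vec (hSUB : ST_SUBTQ) {S : Finset ℕ} (hS : ∀ p ∈ S, p.Prime) {M : Set ℕ}
    (hM : M.Infinite) (x y m n : ℕ → ℤ) (hx : ∀ j ∈ M, 1 ≤ (x j : ℝ) ∧ (j : ℝ) ≤ x j)
    {μ g0 g1 g2 : ℝ} (hμ : IsAlgebraic ℚ μ) (hg0 : IsAlgebraic ℚ g0) (hg1 : IsAlgebraic ℚ g1)
    (hg2 : IsAlgebraic ℚ g2) (hm : ∀ j ∈ M, 0 < m j ∧ SU S (m j))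
    (hn : ∀ j ∈ M, 0 < n j ∧ SU S (n j)) (B ε : ℝ) (hB : 0 < B) (hε : 0 < ε)
    (hb1 : ∀ j ∈ M, |(n j : ℝ) ^ 3 * m j * y j| ≤ (x j : ℝ) ^ B)
    (hb2 : ∀ j ∈ M, (m j : ℝ) ^ 4 ≤ (x j : ℝ) ^ B)
    (hb3 : ∀ j ∈ M, (n j : ℝ) ^ 2 * (m j : ℝ) ^ 2 * x j ≤ (x j : ℝ) ^ B)
    (hb4 : ∀ j ∈ M, (n j : ℝ) ^ 4 * (x j : ℝ) ^ 2 ≤ (x j : ℝ) ^ B)
    (w a : ℕ → ℝ) (hw : ∀ j, w j = (m j : ℝ) / n j) (ha : ∀ j, a j = x j - μ * w j ^ 2)
    (hs : ∀ j ∈ M, |w j * y j - g0 * w j ^ 4 - g1 * w j ^ 2 * a j - g2 * a j ^ 2| *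
      |a j| ^ 3 ≤ w j * (x j : ℝ) ^ (-ε)) :
    ∃ b : Fin 4 → ℚ, b ≠ 0 ∧ {j | j ∈ M ∧ b 0 * (w j * y j) + b 1 * w j ^ 4 +
      b 2 * (w j ^ 2 * x j) + b 3 * (x j : ℝ) ^ 2 = 0}.Infinite := by
  obtain ⟨b, hb0, hinf⟩ := hSUB 4 S
    !![1, -g0 + g1 * μ - g2 * μ ^ 2, -g1 + 2 * g2 * μ, -g2;
       0, 1, 0, 0;
       0, -μ, 1, 0;
       0, μ ^ 2, -2 * μ, 1] ε B M (fun j => (x j : ℝ))
    (fun j => ![n j ^ 3 * m j * y j, m j ^ 4, n j ^ 2 * m j ^ 2 * x j, n j ^ 4 * x j ^ 2]) hS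
    (by norm_num) (by
      have h1 : IsAlgebraic ℚ (1 : ℝ) := isAlgebraic_one
      have h0 : IsAlgebraic ℚ (0 : ℝ) := isAlgebraic_zero
      have h2 : IsAlgebraic ℚ (2 : ℝ) := by
        have := isAlgebraic_natCast (R := ℚ) (A := ℝ) 2
        exact_mod_cast this
      intro i l
      fin_cases i <;> fin_cases l
      · exact h1
      · exact ((hg0.neg.add (hg1.mul hμ)).sub (hg2.mul (hμ.pow 2)))
      · exact hg1.neg.add ((h2.mul hg2).mul hμ)
      · exact hg2.neg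
      · exact h0
      · exact h1
      · exact h0
      · exact h0
      · exact h0
      · exact hμ.neg
      · exact h1
      · exact h0
      · exact h0
      · exact hμ.pow 2
      · exact h2.neg.mul hμ
      · exact h1) (by
      simp [Matrix.det_succ_row_zero, Fin.sum_univ_succ]) hε hB hM
    (fun b => fin_le _ (fun j hj => (hx j hj).2) b) (by
      intro j hj
      have hmR : (0 : ℝ) < m j := by exact_mod_cast (hm j hj).1
      have hnR : (0 : ℝ) < n j := by exact_mod_cast (hn j hj).1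
      have hxR : (0 : ℝ) < x j := by linarith [(hx j hj).1]
      have hw0 : 0 < w j := by rw [hw]; positivity
      refine ⟨(hx j hj).1, ?_, ?_⟩
      · intro i
        fin_cases i
        · simpa using hb1 j hj
        · have : |(m j : ℝ) ^ 4| ≤ (x j : ℝ) ^ B := by
            rw [abs_of_pos (by positivity)]
            exact hb2 j hj
          simpa using this
        · have : |(n j : ℝ) ^ 2 * (m j : ℝ) ^ 2 * x j| ≤ (x j : ℝ) ^ B := by
            rw [abs_of_pos (by positivity)]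
            exact hb3 j hj
          simpa using this
        · have : |(n j : ℝ) ^ 4 * (x j : ℝ) ^ 2| ≤ (x j : ℝ) ^ B := by
            rw [abs_of_pos (by positivity)]
            exact hb4 j hj
          simpa using this
      · have hPm := padic_prod hS (hm j hj).2
        have hPn := padic_prod hS (hn j hj).2
        rw [abs_of_pos hmR] at hPm
        rw [abs_of_pos hnR] at hPn
        obtain ⟨pm, hpm⟩ : ∃ pm : ℝ, pm = ∏ p ∈ S, av (some p) (m j : ℚ) := ⟨_, rfl⟩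
        obtain ⟨pn, hpn⟩ : ∃ pn : ℝ, pn = ∏ p ∈ S, av (some p) (n j : ℚ) := ⟨_, rfl⟩
        rw [← hpm] at hPm
        rw [← hpn] at hPn
        have h4 : ∏ p ∈ S, ∏ i : Fin 4, av (some p) ((![n j ^ 3 * m j * y j, m j ^ 4,
            n j ^ 2 * m j ^ 2 * x j, n j ^ 4 * x j ^ 2] i : ℤ) : ℚ) ≤ pn ^ 9 * pm ^ 7 := by
          rw [hpm, hpn, ← Finset.prod_pow, ← Finset.prod_pow, ← Finset.prod_mul_distrib]
          apply Finset.prod_le_prod
          · intro p _
            exact Finset.prod_nonneg fun i _ => avs_nonneg _ _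
          · intro p hp
            rw [Fin.prod_univ_four]
            simp only [Matrix.cons_val_zero, Matrix.cons_val_one, Matrix.cons_val]
            push_cast
            rw [avp_mul hS hp, avp_mul hS hp, avp_mul hS hp, avp_mul hS hp, avp_mul hS hp,
              avp_pow hS hp (n j : ℚ) 2, avp_pow hS hp (m j : ℚ) 3, avp_pow hS hp (n j : ℚ) 1,
              avp_pow hS hp (m j : ℚ) 1, avp_pow hS hp (n j : ℚ) 3, avp_pow hS hp (x j : ℚ) 1]
            have q1 := avp_int hS hp (y j)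
            have q2 := avp_int hS hp (x j)
            have e1 : (0 : ℝ) ≤ av (some p) (y j : ℚ) := avs_nonneg _ _
            have e2 : (0 : ℝ) ≤ av (some p) (x j : ℚ) := avs_nonneg _ _
            have e3 : (0 : ℝ) ≤ av (some p) (m j : ℚ) := avs_nonneg _ _
            have e4 : (0 : ℝ) ≤ av (some p) (n j : ℚ) := avs_nonneg _ _
            generalize av (some p) (y j : ℚ) = Y at *
            generalize av (some p) (x j : ℚ) = X at *
            generalize av (some p) (m j : ℚ) = U at *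
            generalize av (some p) (n j : ℚ) = V at *
            have f1 : X ^ (1 + 1) ≤ 1 := pow_le_one₀ e2 q2
            calc V ^ (2 + 1) * U * Y * U ^ (3 + 1) * (V ^ (1 + 1) * U ^ (1 + 1) * X) *
                  (V ^ (3 + 1) * X ^ (1 + 1))
                = (V ^ 9 * U ^ 7) * (Y * X * X ^ (1 + 1)) := by ring
              _ ≤ (V ^ 9 * U ^ 7) * 1 := by
                  apply mul_le_mul_of_nonneg_left _ (by positivity)
                  have f2 : Y * X ≤ 1 := mul_le_one₀ q1 e2 q2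
                  exact mul_le_one₀ f2 (by positivity) f1
              _ = _ := mul_one _
        have hf : ∏ i, |∑ l, (!![1, -g0 + g1 * μ - g2 * μ ^ 2, -g1 + 2 * g2 * μ, -g2;
              0, 1, 0, 0; 0, -μ, 1, 0; 0, μ ^ 2, -2 * μ, 1] : Matrix (Fin 4) (Fin 4) ℝ) i l *
              ((![n j ^ 3 * m j * y j, m j ^ 4, n j ^ 2 * m j ^ 2 * x j,
                n j ^ 4 * x j ^ 2] l : ℤ) : ℝ)| =
            (n j : ℝ) ^ 16 * (|w j * y j - g0 * w j ^ 4 - g1 * w j ^ 2 * a j - g2 * a j ^ 2| *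
              |a j| ^ 3) * w j ^ 6 := by
          have hm' : (m j : ℝ) = w j * n j := by rw [hw]; field_simp
          rw [Fin.prod_univ_four]
          simp only [Fin.sum_univ_four, Matrix.of_apply, Matrix.cons_val_zero,
            Matrix.cons_val_one, Matrix.cons_val]
          push_cast
          rw [hm']
          have a1 : (x j : ℝ) = a j + μ * w j ^ 2 := by rw [ha]; ring
          have s1 : (1 : ℝ) * ((n j : ℝ) ^ 3 * (w j * n j) * y j) +
              (-g0 + g1 * μ - g2 * μ ^ 2) * (w j * n j) ^ 4 +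
              (-g1 + 2 * g2 * μ) * ((n j : ℝ) ^ 2 * (w j * n j) ^ 2 * x j) +
              -g2 * ((n j : ℝ) ^ 4 * (x j : ℝ) ^ 2) =
              (n j : ℝ) ^ 4 * (w j * y j - g0 * w j ^ 4 - g1 * w j ^ 2 * a j - g2 * a j ^ 2) := by
            rw [ha]; ring
          have s2 : (0 : ℝ) * ((n j : ℝ) ^ 3 * (w j * n j) * y j) + 1 * (w j * n j) ^ 4 +
              0 * ((n j : ℝ) ^ 2 * (w j * n j) ^ 2 * x j) + 0 * ((n j : ℝ) ^ 4 * (x j : ℝ) ^ 2) =
              (n j : ℝ) ^ 4 * w j ^ 4 := by ring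
          have s3 : (0 : ℝ) * ((n j : ℝ) ^ 3 * (w j * n j) * y j) + -μ * (w j * n j) ^ 4 +
              1 * ((n j : ℝ) ^ 2 * (w j * n j) ^ 2 * x j) + 0 * ((n j : ℝ) ^ 4 * (x j : ℝ) ^ 2) =
              (n j : ℝ) ^ 4 * w j ^ 2 * a j := by rw [ha]; ring
          have s4 : (0 : ℝ) * ((n j : ℝ) ^ 3 * (w j * n j) * y j) + μ ^ 2 * (w j * n j) ^ 4 +
              -2 * μ * ((n j : ℝ) ^ 2 * (w j * n j) ^ 2 * x j) +
              1 * ((n j : ℝ) ^ 4 * (x j : ℝ) ^ 2) =
              (n j : ℝ) ^ 4 * a j ^ 2 := by rw [ha]; ring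
          rw [s1, s2, s3, s4]
          have hn4 : (0 : ℝ) < (n j : ℝ) ^ 4 := by positivity
          rw [abs_mul ((n j : ℝ) ^ 4) (w j * y j - _ - _ - _), abs_of_pos hn4,
            abs_of_pos (show (0 : ℝ) < (n j : ℝ) ^ 4 * w j ^ 4 by positivity),
            abs_mul ((n j : ℝ) ^ 4 * w j ^ 2), abs_of_pos (show (0 : ℝ) <
              (n j : ℝ) ^ 4 * w j ^ 2 by positivity), abs_mul ((n j : ℝ) ^ 4) (a j ^ 2),
            abs_of_pos hn4, abs_pow]
          ring
        rw [hf]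
        have h5 : 0 ≤ (n j : ℝ) ^ 16 * (|w j * y j - g0 * w j ^ 4 - g1 * w j ^ 2 * a j -
            g2 * a j ^ 2| * |a j| ^ 3) * w j ^ 6 := by positivity
        refine (mul_le_mul_of_nonneg_left h4 h5).trans ?_
        have hm' : (m j : ℝ) = w j * n j := by rw [hw]; field_simp
        have hs' := hs j hj
        obtain ⟨E, hE⟩ : ∃ E : ℝ, E = |w j * y j - g0 * w j ^ 4 - g1 * w j ^ 2 * a j -
            g2 * a j ^ 2| * |a j| ^ 3 := ⟨_, rfl⟩
        rw [← hE] at hs' ⊢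
        have hwm : w j * n j * pm = 1 := by rw [← hm']; exact hPm
        have h8 : w j ^ 7 * (n j : ℝ) ^ 16 * pn ^ 9 * pm ^ 7 = 1 := by
          calc w j ^ 7 * (n j : ℝ) ^ 16 * pn ^ 9 * pm ^ 7 =
              ((n j : ℝ) * pn) ^ 9 * (w j * n j * pm) ^ 7 := by ring
            _ = 1 := by rw [hPn, hwm]; norm_num
        have h9 : (n j : ℝ) ^ 16 * E * w j ^ 6 * (pn ^ 9 * pm ^ 7) = E / w j := by
          rw [eq_div_iff hw0.ne']
          calc (n j : ℝ) ^ 16 * E * w j ^ 6 * (pn ^ 9 * pm ^ 7) * w j =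
              E * (w j ^ 7 * (n j : ℝ) ^ 16 * pn ^ 9 * pm ^ 7) := by ring
            _ = E := by rw [h8, mul_one]
        rw [h9, div_le_iff₀ hw0, mul_comm]
        exact hs')
  refine ⟨b, hb0, hinf.mono fun j hj => ⟨hj.1, ?_⟩⟩
  have h1 := hj.2
  have hnR : (n j : ℝ) ≠ 0 := by
    have := (hn j hj.1).1
    exact_mod_cast this.ne'
  have hm' : (m j : ℝ) = w j * n j := by rw [hw]; field_simp
  simp only [Fin.sum_univ_four, Matrix.cons_val_zero, Matrix.cons_val_one, Matrix.cons_val] at h1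
  have h2 : ((b 0 : ℝ) * ((n j : ℝ) ^ 3 * m j * y j) + b 1 * (m j : ℝ) ^ 4 +
      b 2 * ((n j : ℝ) ^ 2 * (m j : ℝ) ^ 2 * x j) + b 3 * ((n j : ℝ) ^ 4 * (x j : ℝ) ^ 2)) = 0 := by
    exact_mod_cast h1
  rw [hm'] at h2
  have h3 : (n j : ℝ) ^ 4 * (b 0 * (w j * y j) + b 1 * w j ^ 4 +
      b 2 * (w j ^ 2 * x j) + b 3 * (x j : ℝ) ^ 2) = 0 := by
    rw [← h2]; ring
  exact (mul_eq_zero.1 h3).resolve_left (pow_ne_zero _ hnR)

end Pool.Agent.Helper66.SUBK
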