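import Mathlib

/-!
Project SUBK, sheet G, row NXR: the degenerate case (3b).
-/

set_option autoImplicit false

namespace Pool.Agent.Helper66.SUBK

/-- case (3b): the relation with a rational square root `θ = h / k` of `μ` bounds `n` and `m` -/
theorem deg3b (h k m n x y : ℤ) (hh : 0 < h) (hk : 0 < k) (hm : 0 < m) (hn : 0 < n)
    (hmn : IsCoprime m n) (θ w a : ℝ) (hθ : θ = (h : ℝ) / k) (hw : w = (m : ℝ) / n)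
    (ha : a = x - θ ^ 2 * w ^ 2) (ha0 : a ≠ 0)
    (hrel : w * y = θ ^ 3 * w ^ 4 + 3 / 2 * θ * w ^ 2 * a + 3 / (8 * θ) * a ^ 2) :
    n ≤ h ^ 2 ∧ (m : ℝ) ≤ 3 * (k : ℝ) ^ 4 * (n : ℝ) ^ 4 * a ^ 2 := by
  have hhR : (h : ℝ) ≠ 0 := by exact_mod_cast hh.ne'
  have hkR : (k : ℝ) ≠ 0 := by exact_mod_cast hk.ne'
  have hnR : (n : ℝ) ≠ 0 := by exact_mod_cast hn.ne'
  have haI : ((k ^ 2 * n ^ 2 * x - h ^ 2 * m ^ 2 : ℤ) : ℝ) = (k : ℝ) ^ 2 * (n : ℝ) ^ 2 * a := by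
    rw [ha, hθ, hw]
    push_cast
    field_simp
  -- the relation between integers
  have hE : 8 * h * k ^ 3 * m * n ^ 3 * y = 8 * h ^ 4 * m ^ 4 +
      12 * h ^ 2 * m ^ 2 * (k ^ 2 * n ^ 2 * x - h ^ 2 * m ^ 2) +
      3 * (k ^ 2 * n ^ 2 * x - h ^ 2 * m ^ 2) ^ 2 := by
    have h1 : (8 * h * k ^ 3 * m * n ^ 3 * y : ℝ) = 8 * (h : ℝ) ^ 4 * (m : ℝ) ^ 4 +
        12 * (h : ℝ) ^ 2 * (m : ℝ) ^ 2 * ((k : ℝ) ^ 2 * (n : ℝ) ^ 2 * a) +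
        3 * ((k : ℝ) ^ 2 * (n : ℝ) ^ 2 * a) ^ 2 := by
      have h2 : (8 * h * k ^ 3 * m * n ^ 3 * y : ℝ) =
          8 * (h : ℝ) * (k : ℝ) ^ 3 * (n : ℝ) ^ 4 * (w * y) := by
        rw [hw]; field_simp
      rw [h2, hrel, hθ, hw]
      field_simp
      ring
    rw [← haI] at h1
    exact_mod_cast h1
  have ha' : k ^ 2 * n ^ 2 * x - h ^ 2 * m ^ 2 ≠ 0 := by
    intro h0
    rw [h0] at haI
    have h1 : (k : ℝ) ^ 2 * (n : ℝ) ^ 2 * a = 0 := by rw [← haI]; norm_num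
    rcases mul_eq_zero.1 h1 with h2 | h2
    · rcases mul_eq_zero.1 h2 with h3 | h3
      · exact hkR (pow_eq_zero_iff (by norm_num) |>.1 h3)
      · exact hnR (pow_eq_zero_iff (by norm_num) |>.1 h3)
    · exact ha0 h2
  constructor
  · -- n ^ 2 ∣ h ^ 4
    have h1 : h ^ 4 * m ^ 4 = n ^ 2 * (6 * h ^ 2 * k ^ 2 * m ^ 2 * x + 3 * k ^ 4 * n ^ 2 * x ^ 2 -
        8 * h * k ^ 3 * m * n * y) := by linear_combination hE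
    have h2 : n ^ 2 ∣ h ^ 4 * m ^ 4 := ⟨_, h1⟩
    have h3 : IsCoprime (n ^ 2) (m ^ 4) := hmn.symm.pow
    have h4 : n ^ 2 ∣ h ^ 4 := h3.dvd_of_dvd_mul_right h2
    have h5 : n ^ 2 ∣ (h ^ 2) ^ 2 := by
      have : (h ^ 2) ^ 2 = h ^ 4 := by ring
      rwa [this]
    have h6 : n ∣ h ^ 2 := (Int.pow_dvd_pow_iff (by norm_num)).1 h5
    exact Int.le_of_dvd (by positivity) h6
  · -- m ∣ 3 a' ^ 2
    have h1 : m ∣ 3 * (k ^ 2 * n ^ 2 * x - h ^ 2 * m ^ 2) ^ 2 := by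
      refine ⟨8 * h * k ^ 3 * n ^ 3 * y - 8 * h ^ 4 * m ^ 3 -
        12 * h ^ 2 * m * (k ^ 2 * n ^ 2 * x - h ^ 2 * m ^ 2), ?_⟩
      linear_combination -hE
    have h2 : 0 < 3 * (k ^ 2 * n ^ 2 * x - h ^ 2 * m ^ 2) ^ 2 := by positivity
    have h3 := Int.le_of_dvd h2 h1
    have h4 : (m : ℝ) ≤ 3 * ((k ^ 2 * n ^ 2 * x - h ^ 2 * m ^ 2 : ℤ) : ℝ) ^ 2 := by
      exact_mod_cast h3
    rw [haI] at h4
    linarith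

/-- the expansion of `q ^ 2 - T ^ 3` at `μ = θ ^ 2` -/
theorem q_exp (θ h : ℝ) (hθ : θ ≠ 0) :
    (θ ^ 3 + 3 / 2 * θ * h + 3 / (8 * θ) * h ^ 2) ^ 2 - (θ ^ 2 + h) ^ 3 =
      h ^ 3 / 8 + 9 / (64 * θ ^ 2) * h ^ 4 := by
  field_simp
  ring

end Pool.Agent.Helper66.SUBK
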