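import Pool.Agent.Helper77.SUBK.SheetF
import Pool.Agent.Helper45.SUBK.FINK
import Pool.Agent.Helper47.SUBK.NDGM
import Pool.Agent.Helper94.SUBK.CONJ

/-!
Project SUBK, row SUBTQ: the Subspace theorem for integral vectors and linear forms with real
algebraic coefficients.
-/

set_option autoImplicit false

namespace Pool.Agent.Helper66.SUBK

open Finset Polynomial Pool.Agent.Helper70.SUB Pool.Agent.Helper77.SUBK
open Pool.Agent.Helper45.SUBK (split_field)
open Pool.Agent.Helper47.SUBK (relQ)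
open Pool.Agent.Helper94.SUBK (PFe)

theorem SUBTQ (hK : ST_SUBTK) (hPFX : ST_PFX) : ST_SUBTQ := by
  classical
  intro n S A ε B M1 Q x hS hn halg hdet hε hB hM1 hQ hx
  -- the field
  set p : ℚ[X] := ∏ ik : Fin n × Fin n, minpoly ℚ ((A ik.1 ik.2 : ℝ) : ℂ) with hp
  have hint : ∀ i k, IsIntegral ℚ ((A i k : ℝ) : ℂ) := fun i k =>
    (IsAlgebraic.algebraMap (halg i k) : IsAlgebraic ℚ (algebraMap ℝ ℂ (A i k))).isIntegral
  have hp0 : p ≠ 0 := Finset.prod_ne_zero_iff.2 fun ik _ => minpoly.ne_zero (hint ik.1 ik.2)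
  obtain ⟨M, iF, iN, iG, φ, hφ⟩ := split_field p hp0
  have hθ : ∀ i k, ∃ θ : M, φ θ = ((A i k : ℝ) : ℂ) := by
    intro i k
    apply hφ
    rw [hp, map_prod]
    exact Finset.prod_eq_zero (mem_univ (i, k)) (minpoly.aeval ℚ _)
  choose θ hθ using hθ
  obtain ⟨P0⟩ := hPFX M S hS
  set P : PF S M := PFe P0 φ with hP
  have hPn : ∀ z, P.nv none z = ‖φ z‖ := fun _ => rfl
  set T : Matrix (Fin n) (Fin n) M := Matrix.of θ with hT
  have hTA : ∀ i k, φ (T i k) = ((A i k : ℝ) : ℂ) := hθ
  have hTdet : T.det ≠ 0 := by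
    intro h
    apply hdet
    have h1 : φ T.det = ((A.det : ℝ) : ℂ) := by
      have h2 : φ.mapMatrix T = (Complex.ofRealHom).mapMatrix A := by
        ext i k
        exact hTA i k
      rw [RingHom.map_det, h2, ← RingHom.map_det]
      rfl
    rw [h, map_zero] at h1
    exact_mod_cast h1.symm
  -- representatives
  set Φ : (M ≃ₐ[ℚ] M) → (M → ℝ) := fun σ z => P.nv none (σ z) with hΦ
  set rep : (M ≃ₐ[ℚ] M) → (M ≃ₐ[ℚ] M) := fun σ => Function.invFun Φ (Φ σ) with hrep
  have hrep1 : ∀ σ z, P.nv none (rep σ z) = P.nv none (σ z) := by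
    intro σ z
    have h1 : Φ (rep σ) = Φ σ := Function.invFun_eq ⟨σ, rfl⟩
    exact congrFun h1 z
  set L : Option ℕ → (M ≃ₐ[ℚ] M) → Matrix (Fin n) (Fin n) M :=
    fun v σ => if v = none then T.map (rep σ).symm else 1 with hL
  have hLdet : ∀ v ∈ plc S, ∀ σ, (L v σ).det ≠ 0 := by
    intro v _ σ
    rw [hL]
    by_cases hv : v = none
    · simp only [hv, if_true]
      have h1 : (T.map (rep σ).symm).det = (rep σ).symm T.det :=
        ((RingHom.map_det ((rep σ).symm : M →+* M) T).symm)
      rw [h1]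
      exact (map_ne_zero (rep σ).symm).2 hTdet
    · simp only [if_neg hv, Matrix.det_one]
      exact one_ne_zero
  have hCon : Con P L := by
    intro v _ σ σ' h
    rw [hL]
    by_cases hv : v = none
    · simp only [hv, if_true]
      have h1 : Φ σ = Φ σ' := by
        funext z
        rw [hv] at h
        exact h z
      have h2 : rep σ = rep σ' := by simp only [hrep]; rw [h1]
      rw [h2]
    · simp only [if_neg hv]
  -- the values
  have hnone : ∀ (j : ℕ) (σ : M ≃ₐ[ℚ] M) (i : Fin n), P.nv none (σ ((L none σ).mulVec (fun k => (x j k : M)) i))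
      = |∑ k, A i k * (x j k : ℝ)| := by
    intro j σ i
    rw [← hrep1]
    have h1 : rep σ ((L none σ).mulVec (fun k => (x j k : M)) i) = ∑ k, T i k * (x j k : M) := by
      rw [hL]
      simp only [if_true, Matrix.mulVec, dotProduct, Matrix.map_apply, map_sum, map_mul,
        map_intCast, AlgEquiv.apply_symm_apply]
    rw [h1, hPn, map_sum]
    have h2 : (∑ k, φ (T i k * (x j k : M))) = ((∑ k, A i k * (x j k : ℝ) : ℝ) : ℂ) := by
      push_cast
      refine Finset.sum_congr rfl fun k _ => ?_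
      rw [map_mul, hTA, map_intCast]
    rw [h2, Complex.norm_real, Real.norm_eq_abs]
  have hfin : ∀ j : ℕ, ∀ p ∈ S, ∀ (σ : M ≃ₐ[ℚ] M) (i : Fin n), P.nv (some p) (σ ((L (some p) σ).mulVec
      (fun k => (x j k : M)) i)) = av (some p) (x j i) := by
    intro j p hp σ i
    have h1 : (L (some p) σ).mulVec (fun k => (x j k : M)) i = (x j i : M) := by
      rw [hL]
      simp
    rw [h1, map_intCast, P.intCast (mem_some hp)]
  set d : ℕ := Fintype.card (M ≃ₐ[ℚ] M) with hd
  have hd1 : d ≠ 0 := Fintype.card_ne_zero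
  obtain ⟨a, ha, hinf⟩ := hK M S P n L ε B M1 Q (fun j k => (x j k : M)) hn hS hLdet hCon hε hB
    hM1 hQ (by
      intro j hj
      obtain ⟨h1, h2, h3⟩ := hx j hj
      have hQ0 : (0 : ℝ) < Q j := by linarith
      refine ⟨h1, ⟨1, ⟨one_ne_zero, fun q hq hq1 => ?_⟩, ?_, fun i => ?_⟩, fun σ i => ?_, ?_⟩
      · exact absurd (Nat.dvd_one.1 hq1) hq.one_lt.ne'
      · rw [Nat.cast_one]
        exact Real.one_le_rpow h1 hB.le
      · rw [Nat.cast_one, one_mul]
        exact isIntegral_intCast _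
      · rw [map_intCast, P.intCast mem_none]
        simpa [av] using h2 i
      · set R : ℝ := (∏ i, |∑ k, A i k * (x j k : ℝ)|) * ∏ p ∈ S, ∏ i, av (some p) (x j i) with hR
        have h4 : ∏ v ∈ plc S, ∏ σ : M ≃ₐ[ℚ] M, ∏ i,
            P.nv v (σ ((L v σ).mulVec (fun k => (x j k : M)) i)) = R ^ d := by
          have e1 : ∏ v ∈ plc S, ∏ σ : M ≃ₐ[ℚ] M, ∏ i,
              P.nv v (σ ((L v σ).mulVec (fun k => (x j k : M)) i))
              = (∏ i, |∑ k, A i k * (x j k : ℝ)|) ^ d
                * ∏ p ∈ S, (∏ i, av (some p) (x j i)) ^ d := by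
            rw [plc, Finset.prod_insertNone]
            congr 1
            · rw [Finset.prod_congr rfl (g := fun _ => ∏ i, |∑ k, A i k * (x j k : ℝ)|)
                fun σ _ => Finset.prod_congr rfl fun i _ => hnone j σ i, Finset.prod_const,
                Finset.card_univ]
            · refine Finset.prod_congr rfl fun p hp => ?_
              rw [Finset.prod_congr rfl (g := fun _ => ∏ i, av (some p) (x j i))
                fun σ _ => Finset.prod_congr rfl fun i _ => hfin j p hp σ i, Finset.prod_const,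
                Finset.card_univ]
          rw [e1, Finset.prod_pow, ← mul_pow]
        rw [h4]
        have hR0 : 0 ≤ R := by
          refine mul_nonneg (Finset.prod_nonneg fun _ _ => abs_nonneg _)
            (Finset.prod_nonneg fun p hp => Finset.prod_nonneg fun i _ => ?_)
          rw [← P.intCast (mem_some hp)]
          exact P.nn _ _
        have h5 : R ^ d ≤ (Q j ^ (-ε)) ^ d := pow_le_pow_left₀ hR0 h3 d
        refine h5.trans (pow_le_of_le_one (Real.rpow_nonneg hQ0.le _) ?_ hd1)
        exact Real.rpow_le_one_of_one_le_of_nonpos h1 (by linarith))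
  obtain ⟨u, hu, hu2⟩ := relQ M a ha
  exact ⟨u, hu, hinf.mono fun j hj => ⟨hj.1, hu2 (x j) hj.2⟩⟩

end Pool.Agent.Helper66.SUBK
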